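import Mathlib

set_option autoImplicit false

namespace Pool.Agent.Results.MP_ebbdc0_co.Components.Stars

/-! Disconnected star forests (this part is taken from helper604's hand-in). -/

open SimpleGraph Finset Filter

variable {V W : Type*}

/-- `A(n;L)`: the least number of copies of `L` in a graph with `n` vertices and
`ex(n;L)+1` edges. -/
noncomputable def minCopies (n : ℕ) {W : Type*} (L : SimpleGraph W) : ℕ :=
  sInf {k | ∃ G : SimpleGraph (Fin n),
    Nat.card G.edgeSet = extremalNumber n L + 1 ∧ G.copyCount L = k}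

/-- the vertices of `G` lying on a copy of `L` -/
noncomputable def covered [Fintype V] (L : SimpleGraph W) (G : SimpleGraph V) : Finset V := by
  classical exact univ.filter (fun z => ∃ f : Copy L G, ∃ w, f w = z)

lemma mem_covered [Fintype V] (L : SimpleGraph W) (G : SimpleGraph V) (f : Copy L G) (w : W) :
    f w ∈ covered L G := by
  classical
  simp only [covered, mem_filter, mem_univ, true_and]
  exact ⟨f, w, rfl⟩

lemma covered_iff [Fintype V] (L : SimpleGraph W) (G : SimpleGraph V) (z : V) :
    z ∈ covered L G ↔ ∃ f : Copy L G, ∃ w, f w = z := by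
  classical
  simp only [covered, mem_filter, mem_univ, true_and]

/-- gluing two maps along a closed set of vertices of `L` -/
lemma glue (L : SimpleGraph W) (G : SimpleGraph V) (S : Set W)
    (hS : ∀ u v, L.Adj u v → (u ∈ S ↔ v ∈ S)) (f g : W → V)
    (hf : ∀ u v, u ∈ S → v ∈ S → L.Adj u v → G.Adj (f u) (f v))
    (hg : ∀ u v, u ∉ S → v ∉ S → L.Adj u v → G.Adj (g u) (g v))
    (hfi : ∀ u v, u ∈ S → v ∈ S → f u = f v → u = v)
    (hgi : ∀ u v, u ∉ S → v ∉ S → g u = g v → u = v)
    (hfg : ∀ u v, u ∈ S → v ∉ S → f u ≠ g v) :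
    ∃ h : Copy L G, (∀ w, w ∈ S → h w = f w) ∧ (∀ w, w ∉ S → h w = g w) := by
  classical
  refine ⟨⟨⟨fun w => if w ∈ S then f w else g w, ?_⟩, ?_⟩, ?_, ?_⟩
  · intro u v huv
    by_cases hu : u ∈ S
    · have hv := (hS u v huv).1 hu
      simp only [hu, hv, if_true]
      exact hf u v hu hv huv
    · have hv : v ∉ S := fun h => hu ((hS u v huv).2 h)
      simp only [hu, hv, if_false]
      exact hg u v hu hv huv
  · intro u v huv
    by_cases hu : u ∈ S <;> by_cases hv : v ∈ S
    · simp [hu, hv] at huv
      exact hfi u v hu hv huv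
    · simp [hu, hv] at huv
      exact absurd huv (hfg u v hu hv)
    · simp [hu, hv] at huv
      exact absurd huv.symm (hfg v u hv hu)
    · simp [hu, hv] at huv
      exact hgi u v hu hv huv
  · intro w hw
    change (if w ∈ S then f w else g w) = f w
    simp [hw]
  · intro w hw
    change (if w ∈ S then f w else g w) = g w
    simp [hw]

lemma covered_card_le [Fintype V] [Fintype W] (L : SimpleGraph W) (G : SimpleGraph V) :
    (covered L G).card ≤ Fintype.card W * G.copyCount L := by
  classical
  have hcc : G.copyCount L = (univ.filter (fun G' : G.Subgraph => Nonempty (L ≃g G'.coe))).card := by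
    rw [copyCount]
  rw [hcc]
  have hsub : covered L G ⊆ (univ.filter (fun G' : G.Subgraph => Nonempty (L ≃g G'.coe))).biUnion
      (fun G' => univ.filter (fun z => z ∈ G'.verts)) := by
    intro z hz
    rw [covered_iff] at hz
    obtain ⟨f, w, rfl⟩ := hz
    rw [mem_biUnion]
    refine ⟨f.toSubgraph, ?_, ?_⟩
    · simp only [mem_filter, mem_univ, true_and]
      exact ⟨f.isoToSubgraph⟩
    · simp only [mem_filter, mem_univ, true_and]
      simp [Copy.toSubgraph]
  refine le_trans (card_le_card hsub) ?_
  refine le_trans card_biUnion_le ?_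
  rw [mul_comm]
  rw [← smul_eq_mul]
  refine sum_le_card_nsmul _ _ _ ?_
  intro G' hG'
  simp only [mem_filter, mem_univ, true_and] at hG'
  obtain ⟨e⟩ := hG'
  have : Fintype.card W = Fintype.card G'.verts := Fintype.card_congr e.toEquiv
  rw [this, Fintype.card_subtype]

lemma degree_bound [Fintype V] [Fintype W] (L : SimpleGraph W) (G : SimpleGraph V)
    [DecidableRel G.Adj]
    (hiso : ∀ u, ∃ v, L.Adj u v)
    (hs : ∀ u v, L.Adj u v → (∀ x, L.Adj u x → x = v) ∨ (∀ x, L.Adj v x → x = u))
    (z : V) (hz : z ∈ covered L G) :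
    G.degree z < (covered L G).card + Fintype.card W := by
  classical
  by_contra hcon
  push Not at hcon
  obtain ⟨f0, q, hq⟩ := (covered_iff L G z).1 hz
  -- the centre
  obtain ⟨p, hpq, hp, r, hpr⟩ : ∃ p, (q = p ∨ L.Adj p q) ∧
      (∀ x, L.Adj p x → ∀ y, L.Adj x y → y = p) ∧ ∃ r, L.Adj p r := by
    obtain ⟨r, hr⟩ := hiso q
    rcases hs q r hr with h | h
    · refine ⟨r, Or.inr hr.symm, ?_, q, hr.symm⟩
      intro x hx y hxy
      rcases hs r x hx with h1 | h1
      · have : q = x := h1 q hr.symm
        subst this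
        exact h y hxy
      · exact h1 y hxy
    · refine ⟨q, Or.inl rfl, ?_, r, hr⟩
      intro x hx y hxy
      rcases hs q x hx with h1 | h1
      · have : r = x := h1 r hr
        subst this
        exact h y hxy
      · exact h1 y hxy
  -- the injection into the neighbours of z outside U
  have hcard : Fintype.card W ≤ (G.neighborFinset z \ covered L G).card := by
    have h1 := Finset.le_card_sdiff (covered L G) (G.neighborFinset z)
    have h2 : (G.neighborFinset z).card = G.degree z := rfl
    omega
  obtain ⟨ι, hι, hιi⟩ : ∃ ι : W → V, (∀ w, ι w ∈ G.neighborFinset z \ covered L G) ∧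
      Function.Injective ι := by
    have : Nonempty (W ↪ ↥(G.neighborFinset z \ covered L G)) := by
      rw [Function.Embedding.nonempty_iff_card_le, Fintype.card_coe]
      exact hcard
    obtain ⟨e⟩ := this
    exact ⟨fun w => (e w : V), fun w => (e w).2, fun a b hab => e.injective (Subtype.ext hab)⟩
  have hιU : ∀ w, ι w ∉ covered L G := fun w => (mem_sdiff.1 (hι w)).2
  have hιz : ∀ w, G.Adj z (ι w) := fun w => by
    have := (mem_sdiff.1 (hι w)).1
    simpa using this
  obtain ⟨h, h1, h2⟩ := glue L G {w | w = p ∨ L.Adj p w}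
    (by
      intro u v huv
      change (u = p ∨ L.Adj p u) ↔ (v = p ∨ L.Adj p v)
      constructor
      · rintro (hu | hu)
        · subst hu; exact Or.inr huv
        · exact Or.inl (hp u hu v huv)
      · rintro (hv | hv)
        · subst hv; exact Or.inr huv.symm
        · exact Or.inl (hp v hv u huv.symm))
    (fun w => if w = p then z else ι w) f0
    (by
      intro u v hu hv huv
      by_cases hup : u = p
      · subst hup
        have : v ≠ u := huv.ne'
        simp only [if_true, this, if_false]
        exact hιz v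
      · have hu' : L.Adj p u := by
          rcases hu with hu | hu
          · exact absurd hu hup
          · exact hu
        have hvp : v = p := hp u hu' v huv
        subst hvp
        simp only [hup, if_true, if_false]
        exact (hιz u).symm)
    (by
      intro u v _ _ huv
      exact f0.toHom.map_adj huv)
    (by
      intro u v hu hv huv
      by_cases hup : u = p <;> by_cases hvp : v = p
      · rw [hup, hvp]
      · simp only [hup, hvp, if_true, if_false] at huv
        exact absurd hz (huv ▸ hιU v)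
      · simp only [hup, hvp, if_true, if_false] at huv
        exact absurd hz (huv ▸ hιU u)
      · simp only [hup, hvp, if_false] at huv
        exact hιi huv)
    (by
      intro u v _ _ huv
      exact f0.injective huv)
    (by
      intro u v hu hv huv
      by_cases hup : u = p
      · simp only [hup, if_true] at huv
        rw [← hq] at huv
        have : q = v := f0.injective huv
        subst this
        apply hv
        rcases hpq with hpq | hpq
        · exact Or.inl hpq
        · exact Or.inr hpq
      · simp only [hup, if_false] at huv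
        exact hιU u (huv ▸ mem_covered L G f0 v))
  have h3 : h r = ι r := by
    rw [h1 r (Or.inr hpr)]
    have : r ≠ p := hpr.ne'
    simp [this]
  exact hιU r (h3 ▸ mem_covered L G h r)


/-- the comparison graph: `G - U` with `x0` joined to everything -/
def cone (G : SimpleGraph V) (U : Finset V) (x0 : V) : SimpleGraph V where
  Adj a b := a ≠ b ∧ ((a ∉ U ∧ b ∉ U ∧ G.Adj a b) ∨ a = x0 ∨ b = x0)
  symm := ⟨by
    rintro a b ⟨h, h1 | h1 | h1⟩
    · exact ⟨h.symm, Or.inl ⟨h1.2.1, h1.1, h1.2.2.symm⟩⟩
    · exact ⟨h.symm, Or.inr (Or.inr h1)⟩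
    · exact ⟨h.symm, Or.inr (Or.inl h1)⟩⟩
  loopless := ⟨fun a h => h.1 rfl⟩

lemma cone_free [Fintype V] (L : SimpleGraph W) (G : SimpleGraph V)
    (hiso : ∀ u, ∃ v, L.Adj u v) (hW : Nonempty W) (hd : ¬ L.Connected) (f0 : Copy L G)
    (x0 : V) (_hx0 : x0 ∈ covered L G) : L.Free (cone G (covered L G) x0) := by
  classical
  rintro ⟨φ⟩
  -- closed set
  obtain ⟨S, hS, hproper, hq⟩ : ∃ S : Set W, (∀ u v, L.Adj u v → (u ∈ S ↔ v ∈ S)) ∧
      (∃ t, t ∉ S) ∧ (∀ q, φ q = x0 → q ∈ S) := by
    have key : ∀ q : W, ∃ S : Set W, (∀ u v, L.Adj u v → (u ∈ S ↔ v ∈ S)) ∧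
        (∃ t, t ∉ S) ∧ q ∈ S := by
      intro q
      refine ⟨{w | L.Reachable q w}, ?_, ?_, ?_⟩
      · intro u v huv
        exact ⟨fun h => h.trans huv.reachable, fun h => h.trans huv.symm.reachable⟩
      · by_contra hcon
        push Not at hcon
        apply hd
        rw [SimpleGraph.connected_iff]
        refine ⟨?_, hW⟩
        intro a b
        have ha : L.Reachable q a := hcon a
        have hb : L.Reachable q b := hcon b
        exact ha.symm.trans hb
      · exact SimpleGraph.Reachable.refl q
    by_cases h : ∃ q, φ q = x0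
    · obtain ⟨q, hq⟩ := h
      obtain ⟨S, h1, h2, h3⟩ := key q
      refine ⟨S, h1, h2, ?_⟩
      intro q' hq'
      have : q' = q := φ.injective (hq'.trans hq.symm)
      rw [this]; exact h3
    · obtain ⟨q⟩ := hW
      obtain ⟨S, h1, h2, h3⟩ := key q
      exact ⟨S, h1, h2, fun q' hq' => absurd ⟨q', hq'⟩ h⟩
  have hadj : ∀ u v, u ∉ S → v ∉ S → L.Adj u v →
      (φ u ∉ covered L G ∧ φ v ∉ covered L G ∧ G.Adj (φ u) (φ v)) := by
    intro u v hu hv huv
    have h1 : (cone G (covered L G) x0).Adj (φ u) (φ v) := φ.toHom.map_adj huv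
    rcases h1.2 with h | h | h
    · exact h
    · exact absurd (hq u h) hu
    · exact absurd (hq v h) hv
  have hout : ∀ u, u ∉ S → φ u ∉ covered L G := by
    intro u hu
    obtain ⟨v, huv⟩ := hiso u
    have hv : v ∉ S := fun h => hu ((hS u v huv).2 h)
    exact (hadj u v hu hv huv).1
  obtain ⟨h, h1, h2⟩ := glue L G S hS f0 φ
    (fun u v _ _ huv => f0.toHom.map_adj huv)
    (fun u v hu hv huv => (hadj u v hu hv huv).2.2)
    (fun u v _ _ huv => f0.injective huv)
    (fun u v _ _ huv => φ.injective huv)
    (fun u v hu hv huv => hout v hv (huv ▸ mem_covered L G f0 u))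
  obtain ⟨t, ht⟩ := hproper
  have h3 := h2 t ht
  exact hout t ht (h3 ▸ mem_covered L G h t)

lemma edge_count [Fintype V] [DecidableEq V] (G : SimpleGraph V) [DecidableRel G.Adj] (U : Finset V)
    (x0 : V) (hx0 : x0 ∈ U) [DecidableRel (cone G U x0).Adj] :
    G.edgeFinset.card + Fintype.card V ≤
      (cone G U x0).edgeFinset.card + 1 + ∑ x ∈ U, G.degree x := by
  classical
  set E0 : Finset (Sym2 V) := G.edgeFinset.filter (fun e => ∀ x ∈ U, x ∉ e) with hE0
  have h1 : G.edgeFinset ⊆ E0 ∪ U.biUnion (fun x => G.incidenceFinset x) := by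
    intro e he
    rw [mem_union]
    by_cases h : ∀ x ∈ U, x ∉ e
    · left
      rw [hE0, mem_filter]
      exact ⟨he, h⟩
    · right
      push Not at h
      obtain ⟨x, hx, hxe⟩ := h
      rw [mem_biUnion]
      refine ⟨x, hx, ?_⟩
      rw [mem_incidenceFinset]
      exact ⟨by simpa using he, hxe⟩
  have h2 : G.edgeFinset.card ≤ E0.card + ∑ x ∈ U, G.degree x := by
    refine le_trans (card_le_card h1) (le_trans (card_union_le _ _) ?_)
    refine Nat.add_le_add_left (le_trans card_biUnion_le ?_) _
    refine le_of_eq (sum_congr rfl ?_)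
    intro x _
    exact G.card_incidenceFinset_eq_degree x
  set E1 : Finset (Sym2 V) := (univ.erase x0).image (fun b => s(x0, b)) with hE1
  have hE1c : E1.card = Fintype.card V - 1 := by
    rw [hE1, card_image_of_injective, card_erase_of_mem (mem_univ _), card_univ]
    intro a b hab
    rcases Sym2.eq_iff.1 hab with h | h
    · exact h.2
    · exact h.2.trans h.1
  have hdisj : Disjoint E0 E1 := by
    rw [Finset.disjoint_left]
    intro e he he1
    rw [hE1, mem_image] at he1
    obtain ⟨b, _, rfl⟩ := he1
    rw [hE0, mem_filter] at he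
    exact he.2 x0 hx0 (by simp)
  have h3 : E0 ∪ E1 ⊆ (cone G U x0).edgeFinset := by
    intro e he
    rw [mem_union] at he
    rcases he with he | he
    · rw [hE0, mem_filter] at he
      induction e with
      | _ a b =>
        rw [mem_edgeFinset, mem_edgeSet]
        have hab : G.Adj a b := by simpa using he.1
        refine ⟨hab.ne, Or.inl ⟨?_, ?_, hab⟩⟩
        · intro ha; exact he.2 a ha (by simp)
        · intro hb; exact he.2 b hb (by simp)
    · rw [hE1, mem_image] at he
      obtain ⟨b, hb, rfl⟩ := he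
      rw [mem_edgeFinset, mem_edgeSet]
      exact ⟨(ne_of_mem_erase hb).symm, Or.inr (Or.inl rfl)⟩
  have h4 := card_le_card h3
  rw [card_union_of_disjoint hdisj, hE1c] at h4
  have hV : 0 < Fintype.card V := Fintype.card_pos_iff.2 ⟨x0⟩
  omega

/-- the quantitative form for disconnected star forests without isolated vertices -/
lemma star_bound [Fintype V] [Fintype W] (L : SimpleGraph W) (G : SimpleGraph V)
    (hiso : ∀ u, ∃ v, L.Adj u v) (hW : Nonempty W) (hd : ¬ L.Connected)
    (hs : ∀ u v, L.Adj u v → (∀ x, L.Adj u x → x = v) ∨ (∀ x, L.Adj v x → x = u))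
    (hG : Nat.card G.edgeSet = extremalNumber (Fintype.card V) L + 1) :
    Fintype.card V ≤ Fintype.card W * G.copyCount L *
      (Fintype.card W * G.copyCount L + Fintype.card W) := by
  classical
  have hGe : G.edgeFinset.card = extremalNumber (Fintype.card V) L + 1 := by
    rw [← hG, Nat.card_eq_fintype_card, edgeFinset_card]
  have hcont : L ⊑ G := IsContained.of_extremalNumber_lt_card_edgeFinset (by omega)
  obtain ⟨f0⟩ := hcont
  obtain ⟨w0⟩ := hW
  have hx0 : f0 w0 ∈ covered L G := mem_covered L G f0 w0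
  have hfree := cone_free L G hiso ⟨w0⟩ hd f0 (f0 w0) hx0
  have h1 := card_edgeFinset_le_extremalNumber hfree
  have h2 := edge_count G (covered L G) (f0 w0) hx0
  have h3 : ∑ x ∈ covered L G, G.degree x ≤
      (covered L G).card * ((covered L G).card + Fintype.card W) := by
    rw [← smul_eq_mul]
    refine sum_le_card_nsmul _ _ _ ?_
    intro x hx
    exact (degree_bound L G hiso hs x hx).le
  have h4 := covered_card_le L G
  have h5 : (covered L G).card * ((covered L G).card + Fintype.card W) ≤
      Fintype.card W * G.copyCount L * (Fintype.card W * G.copyCount L + Fintype.card W) :=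
    Nat.mul_le_mul h4 (Nat.add_le_add_right h4 _)
  omega

/-- the bound for graphs with an isolated vertex -/
lemma isolated_bound [Fintype V] [Fintype W] (L : SimpleGraph W) (G : SimpleGraph V)
    (w0 : W) (hw : ∀ v, ¬ L.Adj w0 v)
    (hG : Nat.card G.edgeSet = extremalNumber (Fintype.card V) L + 1) :
    Fintype.card V ≤ Fintype.card W * G.copyCount L := by
  classical
  have hGe : G.edgeFinset.card = extremalNumber (Fintype.card V) L + 1 := by
    rw [← hG, Nat.card_eq_fintype_card, edgeFinset_card]
  have hcont : L ⊑ G := IsContained.of_extremalNumber_lt_card_edgeFinset (by omega)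
  obtain ⟨f0⟩ := hcont
  refine le_trans ?_ (covered_card_le L G)
  rw [← card_univ]
  refine card_le_card ?_
  intro z _
  by_cases hz : ∃ w, f0 w = z
  · obtain ⟨w, rfl⟩ := hz
    exact mem_covered L G f0 w
  · push Not at hz
    obtain ⟨h, h1, h2⟩ := glue L G {w0}
      (by
        intro u v huv
        constructor
        · intro hu
          have : u = w0 := hu
          subst this
          exact absurd huv (hw v)
        · intro hv
          have : v = w0 := hv
          subst this
          exact absurd huv.symm (hw u))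
      (fun _ => z) f0
      (by
        intro u v hu hv huv
        have : u = w0 := hu
        subst this
        exact absurd huv (hw v))
      (fun u v _ _ huv => f0.toHom.map_adj huv)
      (by
        intro u v hu hv _
        have h1 : u = w0 := hu
        have h2 : v = w0 := hv
        rw [h1, h2])
      (fun u v _ _ huv => f0.injective huv)
      (fun u v _ _ huv => hz v huv.symm)
    have h3 : h w0 = z := h1 w0 rfl
    exact h3 ▸ mem_covered L G h w0


/-- a graph on `n` vertices with exactly `m` edges below a given graph -/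
lemma exists_sub [Fintype V] (H : SimpleGraph V) (m : ℕ) (hm : m ≤ Nat.card H.edgeSet) :
    ∃ G : SimpleGraph V, G ≤ H ∧ Nat.card G.edgeSet = m := by
  classical
  have h1 : m ≤ H.edgeFinset.card := by
    rwa [Nat.card_eq_fintype_card, ← edgeFinset_card] at hm
  obtain ⟨T, hT, hTc⟩ := Finset.exists_subset_card_eq h1
  have hTH : ∀ e ∈ T, e ∈ H.edgeSet := fun e he => by simpa using hT he
  have hset : (fromEdgeSet (T : Set (Sym2 V))).edgeSet = (T : Set (Sym2 V)) := by
    rw [edgeSet_fromEdgeSet]
    ext e
    constructor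
    · intro h; exact h.1
    · intro h
      exact ⟨h, fun hd => H.not_isDiag_of_mem_edgeSet (hTH e h) hd⟩
  refine ⟨fromEdgeSet (T : Set (Sym2 V)), ?_, ?_⟩
  · rw [← edgeSet_subset_edgeSet, hset]
    intro e he
    exact hTH e he
  · rw [hset]
    simpa using hTc

lemma extremal_lt_top (n : ℕ) [Fintype W] (L : SimpleGraph W) (hL : L ≠ ⊥)
    (hn : Fintype.card W ≤ n) :
    extremalNumber n L + 1 ≤ Nat.card (⊤ : SimpleGraph (Fin n)).edgeSet := by
  classical
  have hcont : L ⊑ (⊤ : SimpleGraph (Fin n)) := by
    rw [isContained_top_iff, Function.Embedding.nonempty_iff_card_le]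
    simpa using hn
  have hlt : ∀ G : SimpleGraph (Fin n), L.Free G →
      Nat.card G.edgeSet < Nat.card (⊤ : SimpleGraph (Fin n)).edgeSet := by
    intro G hG
    have h1 : G.edgeFinset.card < (⊤ : SimpleGraph (Fin n)).edgeFinset.card := by
      apply card_lt_card
      rw [edgeFinset_ssubset_edgeFinset]
      refine lt_of_le_of_ne le_top ?_
      intro h
      rw [h] at hG
      exact hG hcont
    rw [edgeFinset_card, edgeFinset_card, ← Nat.card_eq_fintype_card,
      ← Nat.card_eq_fintype_card] at h1
    exact h1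
  have h0 := hlt ⊥ (free_bot hL)
  have h1 : extremalNumber (Fintype.card (Fin n)) L ≤
      Nat.card (⊤ : SimpleGraph (Fin n)).edgeSet - 1 := by
    refine (extremalNumber_le_iff L _).2 (fun G inst hG => ?_)
    have h2 := hlt G hG
    rw [edgeFinset_card, ← Nat.card_eq_fintype_card]
    omega
  rw [Fintype.card_fin] at h1
  omega

lemma exists_graph (n : ℕ) [Fintype W] (L : SimpleGraph W) (hL : L ≠ ⊥)
    (hn : Fintype.card W ≤ n) :
    ∃ G : SimpleGraph (Fin n), Nat.card G.edgeSet = extremalNumber n L + 1 := by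
  obtain ⟨G, _, hG⟩ := exists_sub (⊤ : SimpleGraph (Fin n)) (extremalNumber n L + 1)
    (extremal_lt_top n L hL hn)
  exact ⟨G, hG⟩

lemma tendsto_aux [Fintype W] (L : SimpleGraph W) (hL : L ≠ ⊥) (B : ℕ → ℕ)
    (hB : ∀ (n : ℕ) (G : SimpleGraph (Fin n)),
      Nat.card G.edgeSet = extremalNumber n L + 1 → n ≤ B (G.copyCount L)) :
    Tendsto (fun n => minCopies n L) atTop atTop := by
  classical
  rw [tendsto_atTop]
  intro K
  filter_upwards [eventually_ge_atTop (Fintype.card W + 1 + ∑ k ∈ range K, B k)] with n hn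
  have hne : {k | ∃ G : SimpleGraph (Fin n),
      Nat.card G.edgeSet = extremalNumber n L + 1 ∧ G.copyCount L = k}.Nonempty := by
    obtain ⟨G, hG⟩ := exists_graph n L hL (by omega)
    exact ⟨_, G, hG, rfl⟩
  refine le_csInf hne ?_
  rintro k ⟨G, hG, rfl⟩
  by_contra hcon
  push Not at hcon
  have h1 := hB n G hG
  have h2 : B (G.copyCount L) ≤ ∑ k ∈ range K, B k :=
    single_le_sum (f := B) (fun _ _ => Nat.zero_le _) (mem_range.2 hcon)
  omega

/-- disconnected star forests without isolated vertices -/
lemma star_tendsto [Fintype W] (L : SimpleGraph W) (hL : L ≠ ⊥)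
    (hiso : ∀ u, ∃ v, L.Adj u v) (hd : ¬ L.Connected)
    (hs : ∀ u v, L.Adj u v → (∀ x, L.Adj u x → x = v) ∨ (∀ x, L.Adj v x → x = u)) :
    Tendsto (fun n => minCopies n L) atTop atTop := by
  have hW : Nonempty W := by
    by_contra h
    rw [not_nonempty_iff] at h
    exact hL (Subsingleton.elim _ _)
  refine tendsto_aux L hL (fun c => Fintype.card W * c * (Fintype.card W * c + Fintype.card W)) ?_
  intro n G hG
  have h := star_bound L G hiso hW hd hs (by rw [Fintype.card_fin]; exact hG)
  rwa [Fintype.card_fin] at h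

end Pool.Agent.Results.MP_ebbdc0_co.Components.Stars

open SimpleGraph Filter

namespace Pool.Agent.Results.MP_ebbdc0_co.Components

/-- `A(n; L)`: the minimum, over all graphs `G` with `n` vertices and exactly
`f(n; L) = ex(n; L) + 1` edges, of the number of copies of `L` in `G` (subgraphs of `G`
isomorphic to `L`).  Equivalently the largest `a` such that every graph with `n` vertices and
exactly `f(n; L)` edges contains at least `a` copies of `L`. -/
noncomputable def A (n : ℕ) {W : Type} (L : SimpleGraph W) : ℕ :=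
  sInf {c : ℕ | ∃ G : SimpleGraph (Fin n),
    G.edgeSet.ncard = extremalNumber n L + 1 ∧ c = G.copyCount L}

/-- The vertices of `G` contained in some copy of `L`. -/
def inCopy {V W : Type} (G : SimpleGraph V) (L : SimpleGraph W) : Set V :=
  {x | ∃ f : Copy L G, x ∈ Set.range f}

theorem exists_sub {V : Type} [Finite V] (G : SimpleGraph V) (m : ℕ) (hm : m ≤ G.edgeSet.ncard) :
    ∃ H : SimpleGraph V, H ≤ G ∧ H.edgeSet.ncard = m := by
  obtain ⟨s, hs, hc⟩ := Set.exists_subset_card_eq hm
  refine ⟨SimpleGraph.fromEdgeSet s, ?_, ?_⟩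
  · intro a b hab
    rw [SimpleGraph.fromEdgeSet_adj] at hab
    exact (SimpleGraph.mem_edgeSet G).1 (hs hab.1)
  · rw [SimpleGraph.edgeSet_fromEdgeSet]
    rw [← hc]
    congr 1
    ext e
    constructor
    · rintro ⟨h, _⟩
      exact h
    · intro h
      exact ⟨h, fun hd => G.not_isDiag_of_mem_edgeSet (hs h) hd⟩

theorem exists_extremal {W : Type} (L : SimpleGraph W) (hL : L ≠ ⊥) (n : ℕ) :
    ∃ G : SimpleGraph (Fin n), L.Free G ∧ G.edgeSet.ncard = extremalNumber n L := by
  classical
  obtain ⟨G, hd, hG⟩ := exists_isExtremal_free (V := Fin n) hL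
  obtain ⟨h1, h2⟩ := isExtremal_free_iff.mp hG
  refine ⟨G, h1, ?_⟩
  rw [Fintype.card_fin] at h2
  rw [← h2, ← SimpleGraph.coe_edgeFinset, Set.ncard_coe_finset]

theorem ncard_le_ex {W : Type} (L : SimpleGraph W) (n : ℕ) (G : SimpleGraph (Fin n)) (h : L.Free G) :
    G.edgeSet.ncard ≤ extremalNumber n L := by
  classical
  have h1 := card_edgeFinset_le_extremalNumber (G := G) (H := L) h
  rw [Fintype.card_fin] at h1
  rw [← SimpleGraph.coe_edgeFinset, Set.ncard_coe_finset]
  convert h1

theorem ex_lt {W : Type} [Fintype W] (L : SimpleGraph W) (hL : L ≠ ⊥) (n : ℕ)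
    (hn : Fintype.card W ≤ n) :
    extremalNumber n L + 1 ≤ (⊤ : SimpleGraph (Fin n)).edgeSet.ncard := by
  classical
  obtain ⟨G, inst, hG⟩ := exists_isExtremal_free (V := Fin n) hL
  have hcard : G.edgeFinset.card = extremalNumber (Fintype.card (Fin n)) L :=
    card_edgeFinset_of_isExtremal_free hG
  rw [Fintype.card_fin] at hcard
  have hne : G ≠ ⊤ := by
    rintro rfl
    apply hG.prop
    have hemb : Nonempty (W ↪ Fin n) := by
      apply Function.Embedding.nonempty_of_card_le
      rw [Fintype.card_fin]
      exact hn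
    obtain ⟨g⟩ := hemb
    refine ⟨⟨⟨g, ?_⟩, g.injective⟩⟩
    intro a b hab
    exact fun h => hab.ne (g.injective h)
  have hlt : G < ⊤ := lt_top_iff_ne_top.mpr hne
  have hss : G.edgeSet ⊂ (⊤ : SimpleGraph (Fin n)).edgeSet := edgeSet_ssubset_edgeSet.mpr hlt
  have h1 : G.edgeSet.ncard < (⊤ : SimpleGraph (Fin n)).edgeSet.ncard :=
    Set.ncard_lt_ncard hss (Set.toFinite _)
  have h2 : G.edgeSet.ncard = G.edgeFinset.card := by
    rw [← coe_edgeFinset, Set.ncard_coe_finset]
  omega

theorem ncard_inCopy_le {V W : Type} [Fintype V] [Fintype W] (G : SimpleGraph V)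
    (L : SimpleGraph W) :
    (inCopy G L).ncard ≤ Fintype.card W * G.copyCount L := by
  classical
  rw [SimpleGraph.copyCount, mul_comm]
  refine le_trans ?_ (Finset.card_biUnion_le_card_mul _
    (fun G' : G.Subgraph => Finset.univ.filter (fun x => x ∈ G'.verts)) (Fintype.card W) ?_)
  · rw [← Set.ncard_coe_finset]
    refine Set.ncard_le_ncard ?_ (Finset.finite_toSet _)
    rintro x ⟨f, w, rfl⟩
    rw [Finset.mem_coe, Finset.mem_biUnion]
    refine ⟨f.toSubgraph, ?_, ?_⟩
    · rw [Finset.mem_filter]
      exact ⟨Finset.mem_univ _, ⟨f.isoToSubgraph⟩⟩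
    · rw [Finset.mem_filter]
      exact ⟨Finset.mem_univ _, ⟨w, trivial, rfl⟩⟩
  · intro G' hG'
    rw [Finset.mem_filter] at hG'
    obtain ⟨_, ⟨e⟩⟩ := hG'
    rw [← Fintype.card_subtype]
    exact le_of_eq (Fintype.card_congr e.toEquiv).symm

theorem inCopy_isolated {V W : Type} (G : SimpleGraph V) (L : SimpleGraph W) (v : W)
    (hv : ∀ w, ¬ L.Adj v w) (h : L ⊑ G) (x : V) : x ∈ inCopy G L := by
  classical
  obtain ⟨f⟩ := h
  by_cases hx : x ∈ Set.range f
  · exact ⟨f, hx⟩
  · have hadj : ∀ {a b : W}, L.Adj a b →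
        G.Adj (Function.update (f : W → V) v x a) (Function.update (f : W → V) v x b) := by
      intro a b hab
      have ha : a ≠ v := fun e => hv b (e ▸ hab)
      have hb : b ≠ v := fun e => hv a (e ▸ hab.symm)
      rw [Function.update_of_ne ha, Function.update_of_ne hb]
      exact f.toHom.map_adj hab
    have hinj : Function.Injective (Function.update (f : W → V) v x) := by
      intro a b hab
      by_cases ha : a = v
      · by_cases hb : b = v
        · rw [ha, hb]
        · rw [ha, Function.update_self, Function.update_of_ne hb] at hab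
          exact absurd ⟨b, hab.symm⟩ hx
      · by_cases hb : b = v
        · rw [hb, Function.update_self, Function.update_of_ne ha] at hab
          exact absurd ⟨a, hab⟩ hx
        · rw [Function.update_of_ne ha, Function.update_of_ne hb] at hab
          exact f.injective hab
    refine ⟨⟨⟨Function.update (f : W → V) v x, hadj⟩, hinj⟩, v, ?_⟩
    show Function.update (f : W → V) v x v = x
    exact Function.update_self (f := (f : W → V)) v x

theorem cover {V W : Type} (G : SimpleGraph V) (L : SimpleGraph W) (a b : W) (hab : L.Adj a b)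
    (ha : ∀ w, L.Adj a w → w = b) (hb : ∀ w, L.Adj b w → w = a) (h : L ⊑ G) (u v : V)
    (huv : G.Adj u v) : u ∈ inCopy G L ∨ v ∈ inCopy G L := by
  classical
  obtain ⟨f⟩ := h
  by_cases hu : u ∈ Set.range f
  · exact Or.inl ⟨f, hu⟩
  by_cases hv : v ∈ Set.range f
  · exact Or.inr ⟨f, hv⟩
  left
  have hne : a ≠ b := hab.ne
  obtain ⟨g, hg⟩ : ∃ g : W → V, g = fun w => if w = a then u else if w = b then v else f w :=
    ⟨_, rfl⟩
  have ga : g a = u := by simp [hg]
  have gb : g b = v := by simp [hg, hne.symm]
  have go : ∀ w, w ≠ a → w ≠ b → g w = f w := by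
    intro w h1 h2
    simp [hg, h1, h2]
  have hhom : ∀ x y, L.Adj x y → G.Adj (g x) (g y) := by
    intro x y hxy
    by_cases hxa : x = a
    · rw [hxa] at hxy
      rw [hxa, ha y hxy, ga, gb]
      exact huv
    by_cases hxb : x = b
    · rw [hxb] at hxy
      rw [hxb, hb y hxy, ga, gb]
      exact huv.symm
    by_cases hya : y = a
    · rw [hya] at hxy
      exact absurd (ha x hxy.symm) hxb
    by_cases hyb : y = b
    · rw [hyb] at hxy
      exact absurd (hb x hxy.symm) hxa
    rw [go x hxa hxb, go y hya hyb]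
    exact f.toHom.map_adj hxy
  have hfu : ∀ w, f w ≠ u := fun w hw => hu ⟨w, hw⟩
  have hfv : ∀ w, f w ≠ v := fun w hw => hv ⟨w, hw⟩
  have huv' : u ≠ v := huv.ne
  have hinj : Function.Injective g := by
    intro x y hxy
    by_cases hxa : x = a
    · by_cases hya : y = a
      · rw [hxa, hya]
      · by_cases hyb : y = b
        · rw [hxa, hyb, ga, gb] at hxy
          exact absurd hxy huv'
        · rw [hxa, ga, go y hya hyb] at hxy
          exact absurd hxy.symm (hfu y)
    · by_cases hxb : x = b
      · by_cases hya : y = a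
        · rw [hxb, hya, ga, gb] at hxy
          exact absurd hxy.symm huv'
        · by_cases hyb : y = b
          · rw [hxb, hyb]
          · rw [hxb, gb, go y hya hyb] at hxy
            exact absurd hxy.symm (hfv y)
      · by_cases hya : y = a
        · rw [hya, ga, go x hxa hxb] at hxy
          exact absurd hxy (hfu x)
        · by_cases hyb : y = b
          · rw [hyb, gb, go x hxa hxb] at hxy
            exact absurd hxy (hfv x)
          · rw [go x hxa hxb, go y hya hyb] at hxy
            exact f.injective hxy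
  exact ⟨⟨⟨g, fun h => hhom _ _ h⟩, hinj⟩, a, ga⟩

theorem lower {W : Type} [Fintype W] (L : SimpleGraph W) (T n : ℕ) (hT : T ≤ n)
    (h : ∀ P : Finset W, (∀ x y, L.Adj x y → (x ∈ P ↔ y ∉ P)) → T < P.card) :
    T * (n - T) ≤ extremalNumber n L := by
  classical
  obtain ⟨G, hG⟩ : ∃ G : SimpleGraph (Fin T ⊕ Fin (n - T)), G = completeBipartiteGraph (Fin T) (Fin (n - T)) :=
    ⟨_, rfl⟩
  have hadj : ∀ u v, G.Adj u v → (u.isLeft = true ∧ v.isRight = true ∨ u.isRight = true ∧ v.isLeft = true) := by
    intro u v huv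
    rw [hG] at huv
    exact huv
  have hfree : L.Free G := by
    rintro ⟨f⟩
    have h1 := h (Finset.univ.filter fun w => (f w).isLeft = true) (by
      intro x y hxy
      have h2 := hadj (f x) (f y) (f.toHom.map_adj hxy)
      rw [Finset.mem_filter, Finset.mem_filter]
      simp only [Finset.mem_univ, true_and]
      rcases h2 with ⟨a, b⟩ | ⟨a, b⟩
      · constructor
        · intro _ h3
          rw [Sum.isLeft_eq_false.mpr b] at h3
          exact Bool.false_ne_true h3
        · intro _
          exact a
      · constructor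
        · intro h3
          rw [Sum.isLeft_eq_false.mpr a] at h3
          exact absurd h3 Bool.false_ne_true
        · intro h3
          exact absurd b h3)
    have h3 : (Finset.univ.filter fun w => (f w).isLeft = true).card ≤ T := by
      calc (Finset.univ.filter fun w => (f w).isLeft = true).card ≤
          ((Finset.univ : Finset (Fin T)).image (Sum.inl : Fin T → Fin T ⊕ Fin (n - T))).card := by
            apply Finset.card_le_card_of_injOn (fun w => f w)
            · intro w hw
              rw [Finset.mem_coe, Finset.mem_filter] at hw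
              obtain ⟨a, ha⟩ := Sum.isLeft_iff.mp hw.2
              rw [Finset.mem_coe, Finset.mem_image]
              exact ⟨a, Finset.mem_univ _, ha.symm⟩
            · intro w _ w' _ hww
              exact f.injective hww
        _ ≤ (Finset.univ : Finset (Fin T)).card := Finset.card_image_le
        _ = T := by simp
    omega
  have h4 := card_edgeFinset_le_extremalNumber hfree
  have h5 : Fintype.card (Fin T ⊕ Fin (n - T)) = n := by
    rw [Fintype.card_sum, Fintype.card_fin, Fintype.card_fin]
    omega
  rw [h5] at h4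
  refine le_trans ?_ h4
  calc T * (n - T) = (Finset.univ : Finset (Fin T × Fin (n - T))).card := by
        rw [Finset.card_univ, Fintype.card_prod, Fintype.card_fin, Fintype.card_fin]
    _ ≤ G.edgeFinset.card := by
        apply Finset.card_le_card_of_injOn (fun x => s(Sum.inl x.1, Sum.inr x.2))
        · intro x _
          rw [Finset.mem_coe, SimpleGraph.mem_edgeFinset, SimpleGraph.mem_edgeSet, hG]
          exact Or.inl ⟨rfl, rfl⟩
        · rintro ⟨a, b⟩ _ ⟨c, d⟩ _ hx
          simp only [Sym2.eq_iff] at hx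
          rcases hx with ⟨h6, h7⟩ | ⟨h6, h7⟩
          · rw [Sum.inl_injective h6, Sum.inr_injective h7]
          · exact absurd h6 (by simp)

theorem upper {n : ℕ} (G : SimpleGraph (Fin n)) (S : Finset (Fin n))
    (hS : ∀ u v, G.Adj u v → u ∈ S ∨ v ∈ S) :
    G.edgeSet.ncard ≤ (∑ x ∈ Sᶜ, (G.neighborSet x).ncard) + S.card ^ 2 := by
  classical
  let T1 : Finset (Sym2 (Fin n)) :=
    Sᶜ.biUnion (fun x => (Finset.univ.filter (fun y => G.Adj x y)).image (fun y => s(x, y)))
  let T2 : Finset (Sym2 (Fin n)) := (S ×ˢ S).image (fun p => s(p.1, p.2))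
  have hsub : G.edgeSet ⊆ ((T1 ∪ T2 : Finset (Sym2 (Fin n))) : Set (Sym2 (Fin n))) := by
    intro e he
    induction e using Sym2.ind with
    | _ u v =>
      rw [mem_edgeSet] at he
      rw [Finset.mem_coe, Finset.mem_union]
      by_cases hu : u ∈ S
      · by_cases hv : v ∈ S
        · right
          exact Finset.mem_image.2 ⟨(u, v), Finset.mem_product.2 ⟨hu, hv⟩, rfl⟩
        · left
          refine Finset.mem_biUnion.2 ⟨v, Finset.mem_compl.2 hv, Finset.mem_image.2 ⟨u, ?_, Sym2.eq_swap⟩⟩
          exact Finset.mem_filter.2 ⟨Finset.mem_univ _, he.symm⟩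
      · left
        refine Finset.mem_biUnion.2 ⟨u, Finset.mem_compl.2 hu, Finset.mem_image.2 ⟨v, ?_, rfl⟩⟩
        exact Finset.mem_filter.2 ⟨Finset.mem_univ _, he⟩
  have h1 : T1.card ≤ ∑ x ∈ Sᶜ, (G.neighborSet x).ncard := by
    refine Finset.card_biUnion_le.trans (Finset.sum_le_sum fun x _ => ?_)
    refine Finset.card_image_le.trans (le_of_eq ?_)
    rw [← Set.ncard_coe_finset]
    congr 1
    ext y
    simp
  have h2 : T2.card ≤ S.card ^ 2 := by
    refine Finset.card_image_le.trans (le_of_eq ?_)
    rw [Finset.card_product, sq]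
  calc G.edgeSet.ncard ≤ ((T1 ∪ T2 : Finset (Sym2 (Fin n))) : Set (Sym2 (Fin n))).ncard :=
        Set.ncard_le_ncard hsub (Finset.finite_toSet _)
    _ = (T1 ∪ T2).card := Set.ncard_coe_finset _
    _ ≤ T1.card + T2.card := Finset.card_union_le _ _
    _ ≤ _ := Nat.add_le_add h1 h2

theorem pigeon {n : ℕ} (G : SimpleGraph (Fin n)) (S : Finset (Fin n))
    (hS : ∀ u v, G.Adj u v → u ∈ S ∨ v ∈ S) (r m c : ℕ) (hr : 1 ≤ r)
    (h : r * n ≤ (∑ x ∈ Sᶜ, (G.neighborSet x).ncard) + c)
    (hn : S.card * (m * 2 ^ S.card) + c < n) :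
    ∃ B Y : Finset (Fin n), B.card = r ∧ (∀ y ∈ Y, y ∉ S) ∧ (∀ y ∈ Y, ∀ z ∈ B, G.Adj y z) ∧
      m ≤ Y.card := by
  classical
  obtain ⟨N, hN⟩ : ∃ N : Fin n → Finset (Fin n), N = fun x => Finset.univ.filter (fun v => G.Adj x v) :=
    ⟨_, rfl⟩
  have hmem : ∀ x v, v ∈ N x ↔ G.Adj x v := by
    intro x v
    rw [hN]
    simp
  have hcard : ∀ x, (G.neighborSet x).ncard = (N x).card := by
    intro x
    rw [← Set.ncard_coe_finset]
    congr 1
    ext v
    rw [Finset.mem_coe, hmem]
    exact Iff.rfl
  have hsub : ∀ x, x ∉ S → N x ⊆ S := by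
    intro x hx v hv
    rw [hmem] at hv
    rcases hS x v hv with h1 | h1
    · exact absurd h1 hx
    · exact h1
  obtain ⟨X, hX⟩ : ∃ X : Finset (Fin n), X = Sᶜ.filter (fun x => r ≤ (N x).card) := ⟨_, rfl⟩
  have hsum : ∑ x ∈ Sᶜ, (G.neighborSet x).ncard ≤ S.card * X.card + (r - 1) * n := by
    rw [Finset.sum_congr rfl (fun x _ => hcard x),
      ← Finset.sum_filter_add_sum_filter_not Sᶜ (fun x => r ≤ (N x).card)]
    refine add_le_add ?_ ?_
    · rw [← hX]
      refine (Finset.sum_le_card_nsmul X _ S.card fun x hx => ?_).trans (le_of_eq ?_)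
      · rw [hX, Finset.mem_filter, Finset.mem_compl] at hx
        exact Finset.card_le_card (hsub x hx.1)
      · rw [smul_eq_mul, mul_comm]
    · refine (Finset.sum_le_card_nsmul _ _ (r - 1) fun x hx => ?_).trans ?_
      · rw [Finset.mem_filter] at hx
        omega
      · rw [smul_eq_mul, mul_comm]
        refine Nat.mul_le_mul_left _ ?_
        refine (Finset.card_le_univ _).trans ?_
        rw [Fintype.card_fin]
  have h1 : n ≤ S.card * X.card + c := by
    obtain ⟨k, rfl⟩ : ∃ k, r = k + 1 := ⟨r - 1, by omega⟩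
    simp only [Nat.add_sub_cancel] at hsum
    have h2 : (k + 1) * n = k * n + n := by ring
    omega
  have h3 : S.card * (m * 2 ^ S.card) < S.card * X.card := by omega
  have h4 : m * 2 ^ S.card < X.card := lt_of_mul_lt_mul_left h3 (Nat.zero_le _)
  have hB : ∀ x : Fin n, ∃ B : Finset (Fin n), x ∈ X → B ⊆ N x ∧ B.card = r := by
    intro x
    by_cases hx : x ∈ X
    · have hx' := hx
      rw [hX, Finset.mem_filter] at hx'
      obtain ⟨B, hB1, hB2⟩ := Finset.exists_subset_card_eq hx'.2
      exact ⟨B, fun _ => ⟨hB1, hB2⟩⟩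
    · exact ⟨∅, fun h => absurd h hx⟩
  choose f hf using hB
  have hmaps : ∀ x ∈ X, f x ∈ S.powerset := by
    intro x hx
    rw [Finset.mem_powerset]
    have hx' := hx
    rw [hX, Finset.mem_filter, Finset.mem_compl] at hx'
    exact (hf x hx).1.trans (hsub x hx'.1)
  have hlt : S.powerset.card * m < X.card := by
    rw [Finset.card_powerset, mul_comm]
    exact h4
  obtain ⟨B, _, hBm⟩ := Finset.exists_lt_card_fiber_of_mul_lt_card_of_maps_to hmaps hlt
  refine ⟨B, X.filter (fun x => f x = B), ?_, ?_, ?_, hBm.le⟩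
  · obtain ⟨y, hy⟩ := Finset.card_pos.1 (lt_of_le_of_lt (Nat.zero_le _) hBm)
    rw [Finset.mem_filter] at hy
    rw [← hy.2]
    exact (hf y hy.1).2
  · intro y hy
    rw [Finset.mem_filter] at hy
    have hx' := hy.1
    rw [hX, Finset.mem_filter, Finset.mem_compl] at hx'
    exact hx'.1
  · intro y hy z hz
    rw [Finset.mem_filter] at hy
    rw [← hy.2] at hz
    exact (hmem y z).1 ((hf y hy.1).1 hz)

theorem structural {V W : Type} [Fintype V] [Fintype W] (G : SimpleGraph V) (L : SimpleGraph W)
    (a b : W) (hab : L.Adj a b) (ha : ∀ w, L.Adj a w → w = b) (hb : ∀ w, L.Adj b w → w = a)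
    (hiso : ∀ v, ∃ w, L.Adj v w) (h3 : 3 ≤ Fintype.card W)
    (P : Finset W) (hP : ∀ x y, L.Adj x y → (x ∈ P ↔ y ∉ P))
    (B Y : Finset V) (hB : B.card + 1 = P.card) (hYB : ∀ y ∈ Y, ∀ z ∈ B, G.Adj y z)
    (hY : Fintype.card W + 2 ≤ Y.card) (hYS : ∀ y ∈ Y, y ∉ inCopy G L) (hL : L ⊑ G) : False := by
  classical
  have hdisj : ∀ y ∈ Y, y ∉ B := fun y hy hyB => (hYB y hy y hyB).ne rfl
  -- (i)
  have key : ∀ u v, G.Adj u v → u ∈ B ∨ v ∈ B := by
    intro u v huv
    by_contra hcon
    push Not at hcon
    obtain ⟨huB, hvB⟩ := hcon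
    have hcardY : Fintype.card W ≤ Fintype.card (Y \ {u, v} : Finset V) := by
      rw [Fintype.card_coe]
      have h1 := Finset.le_card_sdiff ({u, v} : Finset V) Y
      have h2 : ({u, v} : Finset V).card ≤ 2 := Finset.card_le_two
      omega
    obtain ⟨ι⟩ := Function.Embedding.nonempty_of_card_le hcardY
    have hcardP : Fintype.card (P \ {a, b} : Finset W) ≤ Fintype.card B := by
      rw [Fintype.card_coe, Fintype.card_coe]
      have hab' := hP a b hab
      have : (P \ {a, b}).card < P.card := by
        apply Finset.card_lt_card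
        rw [Finset.ssubset_iff_of_subset Finset.sdiff_subset]
        by_cases haP : a ∈ P
        · exact ⟨a, haP, by simp⟩
        · have : b ∈ P := by
            by_contra hb'
            exact haP (hab'.2 hb')
          exact ⟨b, this, by simp⟩
      omega
    obtain ⟨κ⟩ := Function.Embedding.nonempty_of_card_le hcardP
    have hι : ∀ w, (ι w : V) ∈ Y ∧ (ι w : V) ≠ u ∧ (ι w : V) ≠ v := by
      intro w
      have := (ι w).2
      simp only [Finset.mem_sdiff, Finset.mem_insert, Finset.mem_singleton, not_or] at this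
      exact ⟨this.1, this.2.1, this.2.2⟩
    have hab0 : a ≠ b := hab.ne
    let g : W → V := fun w => if w = a then u else if w = b then v else
      if h : w ∈ P \ {a, b} then (κ ⟨w, h⟩ : V) else (ι w : V)
    have ga : g a = u := by simp [g]
    have gb : g b = v := by simp [g, hab0.symm]
    have gP : ∀ w, w ≠ a → w ≠ b → ∀ h : w ∈ P, ∃ h' : w ∈ P \ {a, b}, g w = (κ ⟨w, h'⟩ : V) := by
      intro w h1 h2 h
      have h' : w ∈ P \ {a, b} := by simp [h, h1, h2]
      exact ⟨h', by simp only [g, if_neg h1, if_neg h2, dif_pos h']⟩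
    have gN : ∀ w, w ≠ a → w ≠ b → w ∉ P → g w = (ι w : V) := by
      intro w h1 h2 h
      have h' : w ∉ P \ {a, b} := by simp [h]
      simp only [g, if_neg h1, if_neg h2, dif_neg h']
    have gPB : ∀ w, w ≠ a → w ≠ b → w ∈ P → g w ∈ B := by
      intro w h1 h2 h
      obtain ⟨h', e⟩ := gP w h1 h2 h
      rw [e]; exact (κ ⟨w, h'⟩).2
    have gNY : ∀ w, w ≠ a → w ≠ b → w ∉ P → g w ∈ Y ∧ g w ≠ u ∧ g w ≠ v := by
      intro w h1 h2 h
      rw [gN w h1 h2 h]; exact hι w
    have huv' : u ≠ v := huv.ne
    have gu : ∀ w, w ≠ a → g w ≠ u := by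
      intro w h1 e
      by_cases h2 : w = b
      · rw [h2, gb] at e; exact huv' e.symm
      · by_cases h : w ∈ P
        · exact huB (e ▸ gPB w h1 h2 h)
        · exact (gNY w h1 h2 h).2.1 e
    have gv : ∀ w, w ≠ b → g w ≠ v := by
      intro w h2 e
      by_cases h1 : w = a
      · rw [h1, ga] at e; exact huv' e
      · by_cases h : w ∈ P
        · exact hvB (e ▸ gPB w h1 h2 h)
        · exact (gNY w h1 h2 h).2.2 e
    have ginj : Function.Injective g := by
      intro x y e
      by_cases hxa : x = a
      · by_cases hya : y = a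
        · rw [hxa, hya]
        · rw [hxa, ga] at e; exact absurd e.symm (gu y hya)
      by_cases hya : y = a
      · rw [hya, ga] at e; exact absurd e (gu x hxa)
      by_cases hxb : x = b
      · by_cases hyb : y = b
        · rw [hxb, hyb]
        · rw [hxb, gb] at e; exact absurd e.symm (gv y hyb)
      by_cases hyb : y = b
      · rw [hyb, gb] at e; exact absurd e (gv x hxb)
      by_cases hxP : x ∈ P
      · by_cases hyP : y ∈ P
        · obtain ⟨h1, e1⟩ := gP x hxa hxb hxP
          obtain ⟨h2, e2⟩ := gP y hya hyb hyP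
          rw [e1, e2] at e
          have := κ.injective (Subtype.ext e)
          exact congrArg Subtype.val this
        · have h1 := gPB x hxa hxb hxP
          have h2 := (gNY y hya hyb hyP).1
          rw [e] at h1
          exact absurd h1 (hdisj _ h2)
      · by_cases hyP : y ∈ P
        · have h1 := gPB y hya hyb hyP
          have h2 := (gNY x hxa hxb hxP).1
          rw [← e] at h1
          exact absurd h1 (hdisj _ h2)
        · rw [gN x hxa hxb hxP, gN y hya hyb hyP] at e
          exact ι.injective (Subtype.ext e)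
    have ghom : ∀ x y, L.Adj x y → G.Adj (g x) (g y) := by
      intro x y hxy
      by_cases hxa : x = a
      · subst hxa
        have := ha y hxy
        subst this
        rw [ga, gb]; exact huv
      by_cases hxb : x = b
      · subst hxb
        have := hb y hxy
        subst this
        rw [ga, gb]; exact huv.symm
      by_cases hya : y = a
      · subst hya
        exact absurd (ha x hxy.symm) hxb
      by_cases hyb : y = b
      · subst hyb
        exact absurd (hb x hxy.symm) hxa
      have hxyP := hP x y hxy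
      by_cases hxP : x ∈ P
      · have hyP := hxyP.1 hxP
        exact (hYB _ (gNY y hya hyb hyP).1 _ (gPB x hxa hxb hxP)).symm
      · have hyP : y ∈ P := by
          by_contra h; exact hxP (hxyP.2 h)
        exact hYB _ (gNY x hxa hxb hxP).1 _ (gPB y hya hyb hyP)
    let f : Copy L G := ⟨⟨g, fun {x y} h => ghom x y h⟩, ginj⟩
    have hf : ∀ w, f w = g w := fun w => rfl
    -- a vertex outside {a,b}
    have hc : ∃ c, c ≠ a ∧ c ≠ b := by
      by_contra hcon
      push Not at hcon
      have : (Finset.univ : Finset W) ⊆ {a, b} := by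
        intro x _
        by_cases hxa : x = a
        · simp [hxa]
        · simp [hcon x hxa]
      have h1 := Finset.card_le_card this
      have h2 : ({a, b} : Finset W).card ≤ 2 := Finset.card_le_two
      rw [Finset.card_univ] at h1
      omega
    obtain ⟨c, hca, hcb⟩ := hc
    obtain ⟨d, hcd⟩ := hiso c
    have hda : d ≠ a := by
      intro h; subst h; exact hcb (ha c hcd.symm)
    have hdb : d ≠ b := by
      intro h; subst h; exact hca (hb c hcd.symm)
    have hcdP := hP c d hcd
    by_cases hcP : c ∈ P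
    · have hdP := hcdP.1 hcP
      exact hYS _ (gNY d hda hdb hdP).1 ⟨f, d, hf d⟩
    · exact hYS _ (gNY c hca hcb hcP).1 ⟨f, c, hf c⟩
  -- (ii)
  obtain ⟨f⟩ := hL
  have hcardY : Fintype.card W ≤ Fintype.card Y := by
    rw [Fintype.card_coe]; omega
  obtain ⟨ι⟩ := Function.Embedding.nonempty_of_card_le hcardY
  let g : W → V := fun w => if f w ∈ B then f w else (ι w : V)
  have g1 : ∀ w, f w ∈ B → g w = f w := fun w h => by simp only [g, if_pos h]
  have g2 : ∀ w, f w ∉ B → g w = (ι w : V) := fun w h => by simp only [g, if_neg h]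
  have finj : Function.Injective f := f.injective
  have ginj : Function.Injective g := by
    intro x y e
    by_cases hx : f x ∈ B
    · by_cases hy : f y ∈ B
      · rw [g1 x hx, g1 y hy] at e; exact finj e
      · rw [g1 x hx, g2 y hy] at e
        rw [e] at hx
        exact absurd hx (hdisj _ (ι y).2)
    · by_cases hy : f y ∈ B
      · rw [g2 x hx, g1 y hy] at e
        rw [← e] at hy
        exact absurd hy (hdisj _ (ι x).2)
      · rw [g2 x hx, g2 y hy] at e
        exact ι.injective (Subtype.ext e)
  have ghom : ∀ x y, L.Adj x y → G.Adj (g x) (g y) := by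
    intro x y hxy
    have hf : G.Adj (f x) (f y) := f.toHom.map_adj hxy
    by_cases hx : f x ∈ B
    · by_cases hy : f y ∈ B
      · rw [g1 x hx, g1 y hy]; exact hf
      · rw [g1 x hx, g2 y hy]
        exact (hYB _ (ι y).2 _ hx).symm
    · have hy : f y ∈ B := (key _ _ hf).resolve_left hx
      rw [g2 x hx, g1 y hy]
      exact hYB _ (ι x).2 _ hy
  let f' : Copy L G := ⟨⟨g, fun {x y} h => ghom x y h⟩, ginj⟩
  have hw : ∃ w, f w ∉ B := by
    by_contra hcon
    push Not at hcon
    have h1 : Fintype.card W ≤ B.card := by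
      rw [← Finset.card_univ]
      exact Finset.card_le_card_of_injOn f (fun w _ => hcon w) (finj.injOn)
    have h2 : P.card ≤ Fintype.card W := Finset.card_le_univ P
    omega
  obtain ⟨w, hw⟩ := hw
  refine hYS (ι w : V) (ι w).2 ⟨f', w, ?_⟩
  exact g2 w hw

theorem tree_embed_aux {V : Type} [Fintype V] [Nonempty V] (G : SimpleGraph V) (n : ℕ) :
    ∀ (W : Type) [Fintype W] (L : SimpleGraph W), L.IsTree → Fintype.card W = n →
    (∀ v, n ≤ (G.neighborSet v).ncard + 1) →
    ∃ f : W → V, Function.Injective f ∧ ∀ a b, L.Adj a b → G.Adj (f a) (f b) := by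
  classical
  induction n with
  | zero =>
    intro W _ L hL hc _
    have := Fintype.card_eq_zero_iff.mp hc
    exact ⟨fun _ => Classical.arbitrary V, fun a _ _ => isEmptyElim a, fun a => isEmptyElim a⟩
  | succ n ih =>
    intro W _ L hL hc hdeg
    rcases subsingleton_or_nontrivial W with hW | hW
    · refine ⟨fun _ => Classical.arbitrary V, fun a b _ => Subsingleton.elim a b, fun a b h => ?_⟩
      exact absurd (Subsingleton.elim a b) h.ne
    · obtain ⟨v, hv⟩ := hL.exists_vert_degree_one_of_nontrivial
      have hconn := hL.connected.induce_compl_singleton_of_degree_eq_one hv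
      have hac := hL.isAcyclic.induce ({v}ᶜ : Set W)
      have hcard : Fintype.card ↥({v}ᶜ : Set W) = n := by
        rw [Fintype.card_compl_set]
        simp [hc]
      obtain ⟨f, hfi, hfa⟩ := ih ↥({v}ᶜ : Set W) (L.induce ({v}ᶜ : Set W)) ⟨hconn, hac⟩ hcard
        (fun w => by have := hdeg w; omega)
      obtain ⟨p, hvp, hpu⟩ := degree_eq_one_iff_existsUnique_adj.mp hv
      have hpv : p ∈ ({v}ᶜ : Set W) := by
        simp only [Set.mem_compl_iff, Set.mem_singleton_iff]
        exact hvp.ne'
      have hex : ∃ x, x ∈ G.neighborSet (f ⟨p, hpv⟩) ∧ x ∉ Set.range f := by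
        by_contra hno
        push Not at hno
        have hsub : G.neighborSet (f ⟨p, hpv⟩) ⊆ Set.range f \ {f ⟨p, hpv⟩} := by
          intro x hx
          refine ⟨hno x hx, ?_⟩
          simp only [Set.mem_singleton_iff]
          intro hxe
          rw [hxe] at hx
          exact G.loopless.irrefl _ hx
        have h1 := Set.ncard_le_ncard hsub (Set.toFinite _)
        have h2 : (Set.range f \ {f ⟨p, hpv⟩}).ncard + 1 = (Set.range f).ncard :=
          Set.ncard_sdiff_singleton_add_one ⟨_, rfl⟩ (Set.toFinite _)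
        have h3 : (Set.range f).ncard = n := by
          rw [← Set.image_univ, Set.ncard_image_of_injective _ hfi, Set.ncard_univ,
            Nat.card_eq_fintype_card, hcard]
        have h4 := hdeg (f ⟨p, hpv⟩)
        omega
      obtain ⟨x, hx, hxr⟩ := hex
      refine ⟨fun w => if h : w = v then x else f ⟨w, h⟩, ?_, ?_⟩
      · intro a b hab
        by_cases ha : a = v <;> by_cases hb : b = v
        · rw [ha, hb]
        · simp only [ha, hb, dite_true, dite_false] at hab
          exact absurd ⟨_, hab.symm⟩ hxr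
        · simp only [ha, hb, dite_true, dite_false] at hab
          exact absurd ⟨_, hab⟩ hxr
        · simp only [ha, hb, dite_false] at hab
          exact congrArg Subtype.val (hfi hab)
      · intro a b hab
        by_cases ha : a = v <;> by_cases hb : b = v
        · rw [ha, hb] at hab
          exact absurd rfl hab.ne
        · subst ha
          have hbp : b = p := hpu b hab
          subst hbp
          simp only [dite_true, hb, dite_false]
          exact SimpleGraph.Adj.symm hx
        · subst hb
          have hap : a = p := hpu a hab.symm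
          subst hap
          simp only [dite_true, ha, dite_false]
          exact hx
        · simp only [ha, hb, dite_false]
          exact hfa ⟨a, ha⟩ ⟨b, hb⟩ hab


theorem tree_embed {V W : Type} [Fintype V] [Nonempty V] [Fintype W] (G : SimpleGraph V)
    (L : SimpleGraph W) (hL : L.IsTree)
    (hdeg : ∀ v, Fintype.card W ≤ (G.neighborSet v).ncard + 1) : L ⊑ G := by
  obtain ⟨f, hfi, hfa⟩ := tree_embed_aux G (Fintype.card W) W L hL rfl hdeg
  exact ⟨⟨⟨f, fun {a b} h => hfa a b h⟩, hfi⟩⟩

theorem construct {W : Type} [Fintype W] (L : SimpleGraph W) (hL : L.Connected) (m s : ℕ)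
    (H0 : SimpleGraph (Fin m)) (hfree : L.Free H0) :
    ∃ G : SimpleGraph (Fin (m + s)), G.edgeSet.ncard = H0.edgeSet.ncard + s.choose 2 ∧
      ∀ G' ≤ G, G'.copyCount L ≤ s ^ Fintype.card W := by
  classical
  set K : SimpleGraph (Fin m ⊕ Fin s) := SimpleGraph.sum H0 (⊤ : SimpleGraph (Fin s)) with hK
  refine ⟨K.comap finSumFinEquiv.symm, ?_, ?_⟩
  · have e1 : (K.comap finSumFinEquiv.symm).edgeSet ≃ K.edgeSet :=
      (SimpleGraph.Iso.comap finSumFinEquiv.symm K).mapEdgeSet
    have e2 : K.edgeSet ≃ H0.edgeSet ⊕ (⊤ : SimpleGraph (Fin s)).edgeSet := edgeSetSumEquiv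
    rw [← Nat.card_coe_set_eq, ← Nat.card_coe_set_eq, Nat.card_congr (e1.trans e2), Nat.card_sum]
    congr 1
    rw [Nat.card_eq_fintype_card, SimpleGraph.card_edgeSet,
      SimpleGraph.card_edgeFinset_top_eq_card_choose_two, Fintype.card_fin]
  · intro G' hG'
    refine copyCount_le_labelledCopyCount.trans ?_
    have key : ∀ f : Copy L G', ∃ g : W → Fin s, ∀ w, finSumFinEquiv.symm (f w) = Sum.inr (g w) := by
      intro f
      have hadj : ∀ a b, L.Adj a b → K.Adj (finSumFinEquiv.symm (f a)) (finSumFinEquiv.symm (f b)) := by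
        intro a b hab
        have h1 : G'.Adj (f a) (f b) := f.toHom.map_adj hab
        exact hG' h1
      let F : L →g K := ⟨fun w => finSumFinEquiv.symm (f w), fun {a b} h => hadj a b h⟩
      have hFinj : Function.Injective F := by
        intro a b h
        exact f.injective (finSumFinEquiv.symm.injective h)
      by_cases hall : ∀ w, ∃ x, F w = Sum.inl x
      · exfalso
        choose x hx using hall
        apply hfree
        refine ⟨⟨⟨x, ?_⟩, ?_⟩⟩
        · intro a b hab
          have h1 : K.Adj (F a) (F b) := F.map_adj hab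
          rw [hx a, hx b] at h1
          exact h1
        · intro a b h
          have h' : x a = x b := h
          apply hFinj
          rw [hx a, hx b, h']
      · push Not at hall
        obtain ⟨w0, hw0⟩ := hall
        have hr0 : ∃ y, F w0 = Sum.inr y := by
          rcases hF : F w0 with x | y
          · exact absurd hF (hw0 x)
          · exact ⟨y, rfl⟩
        obtain ⟨y0, hy0⟩ := hr0
        have hall2 : ∀ w, ∃ y, F w = Sum.inr y := by
          intro w
          rcases hF : F w with x | y
          · exfalso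
            have h1 : K.Reachable (F w) (F w0) := (hL.preconnected w w0).map F
            rw [hF, hy0] at h1
            exact not_reachable_sum_inl_inr _ _ h1
          · exact ⟨y, rfl⟩
        choose g hg using hall2
        exact ⟨g, hg⟩
    choose g hg using key
    have hinj : Function.Injective g := by
      intro f1 f2 h
      apply Copy.ext
      intro w
      apply finSumFinEquiv.symm.injective
      rw [hg f1 w, hg f2 w, h]
    have h1 : Nat.card (Copy L G') ≤ s ^ Fintype.card W := by
      refine (Nat.card_le_card_of_injective g hinj).trans (le_of_eq ?_)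
      rw [Nat.card_eq_fintype_card, Fintype.card_fun, Fintype.card_fin]
    have h2 : G'.labelledCopyCount L = Nat.card (Copy L G') := by
      unfold labelledCopyCount
      rw [Nat.card_eq_fintype_card]
      congr!
    rw [h2]
    exact h1

theorem ex_succ {W : Type} [Fintype W] (L : SimpleGraph W) (hL : L.IsTree) (hne : L ≠ ⊥) (n : ℕ) :
    extremalNumber (n + 1) L ≤ extremalNumber n L + Fintype.card W := by
  classical
  have h0 : extremalNumber (Fintype.card (Fin (n + 1))) L ≤ extremalNumber n L + Fintype.card W := by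
    rw [extremalNumber_le_iff]
    intro G _ hG
    obtain ⟨v, hv⟩ : ∃ v, (G.neighborSet v).ncard + 1 < Fintype.card W := by
      by_contra hcon
      push Not at hcon
      exact hG (tree_embed G L hL hcon)
    have h1 := card_edgeFinset_deleteIncidenceSet_le_extremalNumber hG v
    rw [Fintype.card_fin, Nat.add_sub_cancel, card_edgeFinset_deleteIncidenceSet] at h1
    have h2 : (G.neighborSet v).ncard = G.degree v := by
      rw [Set.ncard_eq_toFinset_card', ← card_neighborFinset_eq_degree]
      rfl
    omega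
  rwa [Fintype.card_fin] at h0

/-- `G` with all edges meeting a copy of `L` removed. -/
def outside {V W : Type} (G : SimpleGraph V) (L : SimpleGraph W) : SimpleGraph V where
  Adj x y := G.Adj x y ∧ x ∉ inCopy G L ∧ y ∉ inCopy G L
  symm := ⟨fun _ _ h => ⟨h.1.symm, h.2.2, h.2.1⟩⟩
  loopless := ⟨fun _ h => h.1.ne rfl⟩

theorem free_outside {V W : Type} (G : SimpleGraph V) (L : SimpleGraph W)
    (c : L.ConnectedComponent) (hc : ∃ a ∈ c.supp, ∃ b, L.Adj a b) (hcont : L ⊑ G) :
    (L.induce c.supp).Free (outside G L) := by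
  classical
  rintro ⟨g⟩
  obtain ⟨f⟩ := hcont
  obtain ⟨a0, ha0, b0, hab⟩ := hc
  have hnb : ∀ a ∈ c.supp, ∃ b, L.Adj a b := by
    intro a ha
    by_cases h : a = a0
    · rw [h]; exact ⟨b0, hab⟩
    · have hr : L.Reachable a a0 := by
        rw [ConnectedComponent.mem_supp_iff] at ha ha0
        exact ConnectedComponent.exact (ha.trans ha0.symm)
      obtain ⟨p⟩ := hr
      cases p with
      | nil => exact absurd rfl h
      | cons hadj _ => exact ⟨_, hadj⟩
  have hg : ∀ a (ha : a ∈ c.supp), g ⟨a, ha⟩ ∉ inCopy G L := by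
    intro a ha
    obtain ⟨b, hb⟩ := hnb a ha
    have hbs : b ∈ c.supp := (c.mem_supp_congr_adj hb).1 ha
    have h1 : (L.induce c.supp).Adj ⟨a, ha⟩ ⟨b, hbs⟩ := hb
    have h2 := g.toHom.map_adj h1
    exact h2.2.1
  let f' : W → V := fun x => if h : x ∈ c.supp then g ⟨x, h⟩ else f x
  have hin : ∀ x (h : x ∈ c.supp), f' x = g ⟨x, h⟩ := fun x h => dif_pos h
  have hout : ∀ x (_ : x ∉ c.supp), f' x = f x := fun x h => dif_neg h
  have hhom : ∀ {x y : W}, L.Adj x y → G.Adj (f' x) (f' y) := by
    intro x y hxy
    by_cases hx : x ∈ c.supp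
    · have hy : y ∈ c.supp := (c.mem_supp_congr_adj hxy).1 hx
      rw [hin x hx, hin y hy]
      have h1 : (L.induce c.supp).Adj ⟨x, hx⟩ ⟨y, hy⟩ := hxy
      exact (g.toHom.map_adj h1).1
    · have hy : y ∉ c.supp := fun hy => hx ((c.mem_supp_congr_adj hxy).2 hy)
      rw [hout x hx, hout y hy]
      exact f.toHom.map_adj hxy
  have hinj : Function.Injective f' := by
    intro x y hxy
    by_cases hx : x ∈ c.supp <;> by_cases hy : y ∈ c.supp
    · rw [hin x hx, hin y hy] at hxy
      have := g.injective hxy
      exact congrArg Subtype.val this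
    · rw [hin x hx, hout y hy] at hxy
      exact absurd ⟨f, ⟨y, hxy.symm⟩⟩ (hg x hx)
    · rw [hout x hx, hin y hy] at hxy
      exact absurd ⟨f, ⟨x, hxy⟩⟩ (hg y hy)
    · rw [hout x hx, hout y hy] at hxy
      exact f.injective hxy
  have hfin : g ⟨a0, ha0⟩ ∈ inCopy G L := by
    refine ⟨⟨⟨f', hhom⟩, hinj⟩, a0, ?_⟩
    exact hin a0 ha0
  exact hg a0 ha0 hfin

theorem edges_outside {n : ℕ} {W : Type} (G : SimpleGraph (Fin n)) (L : SimpleGraph W) :
    G.edgeSet.ncard ≤ (outside G L).edgeSet.ncard + (inCopy G L).ncard * n := by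
  classical
  have hsub : G.edgeSet ⊆ (outside G L).edgeSet ∪
      (fun p : Fin n × Fin n => s(p.1, p.2)) '' (inCopy G L ×ˢ (Set.univ : Set (Fin n))) := by
    intro e he
    induction e using Sym2.ind with
    | _ x y =>
      rw [SimpleGraph.mem_edgeSet] at he
      by_cases hx : x ∈ inCopy G L
      · exact Or.inr ⟨(x, y), ⟨hx, Set.mem_univ _⟩, rfl⟩
      · by_cases hy : y ∈ inCopy G L
        · exact Or.inr ⟨(y, x), ⟨hy, Set.mem_univ _⟩, Sym2.eq_swap⟩
        · exact Or.inl (by rw [SimpleGraph.mem_edgeSet]; exact ⟨he, hx, hy⟩)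
  calc G.edgeSet.ncard ≤ ((outside G L).edgeSet ∪
      (fun p : Fin n × Fin n => s(p.1, p.2)) '' (inCopy G L ×ˢ (Set.univ : Set (Fin n)))).ncard :=
        Set.ncard_le_ncard hsub (Set.toFinite _)
    _ ≤ (outside G L).edgeSet.ncard + ((fun p : Fin n × Fin n => s(p.1, p.2)) ''
        (inCopy G L ×ˢ (Set.univ : Set (Fin n)))).ncard := Set.ncard_union_le _ _
    _ ≤ (outside G L).edgeSet.ncard + (inCopy G L ×ˢ (Set.univ : Set (Fin n))).ncard :=
        Nat.add_le_add_left (Set.ncard_image_le (Set.toFinite _)) _
    _ = (outside G L).edgeSet.ncard + (inCopy G L).ncard * n := by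
        rw [Set.ncard_prod, Set.ncard_univ, Nat.card_eq_fintype_card, Fintype.card_fin]

theorem gap {W W' : Type} (L : SimpleGraph W) (H : SimpleGraph W')
    (h : turanDensity H < turanDensity L) (K : ℕ) :
    ∀ᶠ n : ℕ in atTop, extremalNumber n H + K * n < extremalNumber n L := by
  have h1 := tendsto_turanDensity H
  have h2 := tendsto_turanDensity L
  set δ : ℝ := (turanDensity L - turanDensity H) / 4 with hδ
  have hδ0 : 0 < δ := by rw [hδ]; linarith
  have e1 : ∀ᶠ n : ℕ in atTop, (extremalNumber n H / n.choose 2 : ℝ) < turanDensity H + δ :=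
    h1.eventually_lt_const (by linarith)
  have e2 : ∀ᶠ n : ℕ in atTop, turanDensity L - δ < (extremalNumber n L / n.choose 2 : ℝ) :=
    h2.eventually_const_lt (by linarith)
  have e3 : ∀ᶠ n : ℕ in atTop, (K : ℝ) / δ * 2 + 1 < (n : ℝ) :=
    (tendsto_natCast_atTop_atTop).eventually_gt_atTop _
  filter_upwards [e1, e2, e3, eventually_ge_atTop 2] with n g1 g2 g3 g4
  have hn : (2 : ℝ) ≤ n := by exact_mod_cast g4
  have hC : (0 : ℝ) < n.choose 2 := by exact_mod_cast Nat.choose_pos g4
  have hCe : (n.choose 2 : ℝ) = n * (n - 1) / 2 := Nat.cast_choose_two ℝ n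
  rw [div_lt_iff₀ hC] at g1
  rw [lt_div_iff₀ hC] at g2
  have g5 : (K : ℝ) * n < δ * n.choose 2 := by
    rw [hCe]
    have g6 : (K : ℝ) * 2 < (n - 1) * δ := by
      have : (K : ℝ) / δ * 2 < n - 1 := by linarith
      rw [div_mul_eq_mul_div, div_lt_iff₀ hδ0] at this
      exact this
    nlinarith
  have g7 : ((extremalNumber n H + K * n : ℕ) : ℝ) < (extremalNumber n L : ℝ) := by
    push_cast
    have : (turanDensity H + δ) * n.choose 2 + δ * n.choose 2 ≤ (turanDensity L - δ) * n.choose 2 := by
      have : (turanDensity H + δ) + δ ≤ turanDensity L - δ := by rw [hδ]; linarith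
      nlinarith
    linarith
  exact_mod_cast g7

theorem es_upper {W : Type} [Fintype W] (H : SimpleGraph W) (r : ℕ) (hr : 1 ≤ r)
    (hH : H.Colorable (r + 1)) (hne : H ≠ ⊥) : turanDensity H ≤ 1 - 1 / (r : ℝ) := by
  classical
  have hr1 : (1 : ℝ) ≤ (r : ℝ) := by exact_mod_cast hr
  have hr0 : (0 : ℝ) ≤ 1 - 1 / (r : ℝ) := by
    have : 1 / (r : ℝ) ≤ 1 := by
      rw [div_le_one (by linarith)]
      exact hr1
    linarith
  apply le_of_forall_pos_le_add
  intro ε hε
  obtain ⟨n0, hn0⟩ := eventually_atTop.mp
    (eventually_completeEquipartiteGraph_isContained_of_minDegree hε r (Fintype.card W))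
  set ρ : ℝ := 1 - 1 / (r : ℝ) + ε with hρdef
  have hρ : 0 < ρ := by linarith
  have hcont : ∀ n, n0 ≤ n → ∀ (G : SimpleGraph (Fin n)) [DecidableRel G.Adj], H.Free G →
      (G.minDegree : ℝ) < ρ * n := by
    intro n hn G _ hfree
    by_contra hc
    push Not at hc
    have h1 := hn0 n hn (G := G) hc
    obtain ⟨C⟩ := hH
    have h2 : H ⊑ completeEquipartiteGraph (r + 1) (Fintype.card W) :=
      isContained_completeEquipartiteGraph_of_colorable C _ (fun c => by
        exact Fintype.card_subtype_le _)
    exact hfree (h2.trans h1)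
  have hstep : ∀ n, n0 ≤ n + 1 →
      (extremalNumber (n + 1) H : ℝ) ≤ extremalNumber n H + ρ * ((n : ℝ) + 1) := by
    intro n hn
    have key : (extremalNumber (Fintype.card (Fin (n + 1))) H : ℝ) ≤
        extremalNumber n H + ρ * ((n : ℝ) + 1) := by
      rw [extremalNumber_le_iff_of_nonneg H (by positivity)]
      intro G _ hfree
      obtain ⟨v, hv⟩ := G.exists_minimal_degree_vertex
      have h1 := hcont (n + 1) hn G hfree
      have h2 := card_edgeFinset_deleteIncidenceSet_le_extremalNumber hfree v
      rw [Fintype.card_fin, Nat.add_sub_cancel] at h2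
      have h3 := card_edgeFinset_deleteIncidenceSet G v
      have h4 : (G.edgeFinset.card : ℝ) ≤ (G.deleteIncidenceSet v).edgeFinset.card + G.degree v := by
        have : G.edgeFinset.card ≤ (G.deleteIncidenceSet v).edgeFinset.card + G.degree v := by
          omega
        exact_mod_cast this
      have h5 : ((G.deleteIncidenceSet v).edgeFinset.card : ℝ) ≤ extremalNumber n H := by
        exact_mod_cast h2
      rw [hv] at h1
      push_cast at h1
      linarith
    simpa using key
  set C0 : ℝ := ((extremalNumber n0 H : ℕ) : ℝ) with hC0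
  have hC0n : 0 ≤ C0 := by positivity
  have hind : ∀ k : ℕ, (extremalNumber (n0 + k) H : ℝ) ≤
      C0 + ρ * (((n0 + k : ℕ) : ℝ) * (((n0 + k : ℕ) : ℝ) + 1) / 2) := by
    intro k
    induction k with
    | zero =>
      simp only [Nat.add_zero]
      have : 0 ≤ ρ * ((n0 : ℝ) * ((n0 : ℝ) + 1) / 2) := by positivity
      linarith
    | succ k ih =>
      have h := hstep (n0 + k) (by omega)
      have e : n0 + (k + 1) = n0 + k + 1 := by omega
      rw [e]
      push_cast at h ih ⊢
      nlinarith [h, ih]
  by_contra hd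
  push Not at hd
  set d : ℝ := turanDensity H with hddef
  have hdr : 0 < d - ρ := by linarith
  obtain ⟨k, hk⟩ := exists_nat_gt (2 * (ρ + C0) / (d - ρ) + 1)
  set n : ℕ := n0 + (k + 2) with hn
  have hn2 : 2 ≤ n := by omega
  have hlow : d ≤ (extremalNumber n H : ℝ) / (n.choose 2 : ℝ) :=
    (isGLB_turanDensity H).1 ⟨n, hn2, rfl⟩
  have hch : (0 : ℝ) < (n.choose 2 : ℝ) := by
    exact_mod_cast Nat.choose_pos hn2
  rw [le_div_iff₀ hch, Nat.cast_choose_two] at hlow
  have hup := hind (k + 2)
  rw [← hn] at hup
  have hnk : (k : ℝ) ≤ (n : ℝ) - 2 := by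
    rw [hn]
    push_cast
    have : (0 : ℝ) ≤ (n0 : ℝ) := Nat.cast_nonneg _
    linarith
  have hn1 : (1 : ℝ) ≤ (n : ℝ) := by
    have : (0 : ℝ) ≤ (k : ℝ) := Nat.cast_nonneg _
    linarith
  have hbig : 2 * (ρ + C0) < (d - ρ) * ((n : ℝ) - 1) := by
    have h1 : 2 * (ρ + C0) / (d - ρ) < (n : ℝ) - 1 := by linarith
    rw [div_lt_iff₀ hdr] at h1
    linarith
  have hfin : (n : ℝ) * (2 * (ρ + C0)) < (n : ℝ) * ((d - ρ) * ((n : ℝ) - 1)) :=
    mul_lt_mul_of_pos_left hbig (by linarith)
  have hC0' : C0 ≤ (n : ℝ) * C0 := le_mul_of_one_le_left hC0n hn1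
  nlinarith [hfin, hC0', hlow, hup]

theorem turan_lower {W : Type} [Fintype W] (L : SimpleGraph W) (k : ℕ) (hk : 1 ≤ k)
    (hL : ¬ L.Colorable k) : 1 - 1 / (k : ℝ) ≤ turanDensity L := by
  classical
  have hsub : Tendsto (fun t : ℕ => k * t) atTop atTop :=
    tendsto_id.const_mul_atTop' (by omega)
  refine ge_of_tendsto ((tendsto_turanDensity L).comp hsub) ?_
  filter_upwards [eventually_ge_atTop 2] with t ht
  have hfree : L.Free (completeEquipartiteGraph k t) := by
    rintro ⟨f⟩
    exact hL ((completeEquipartiteGraph_colorable (r := k) (t := t)).of_hom f.toHom)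
  have h1 := card_edgeFinset_le_extremalNumber hfree
  rw [card_edgeFinset_completeEquipartiteGraph, Fintype.card_prod, Fintype.card_fin,
    Fintype.card_fin] at h1
  have h2 : ((k.choose 2 * t ^ 2 : ℕ) : ℝ) ≤ (extremalNumber (k * t) L : ℝ) := by exact_mod_cast h1
  have hk1 : (1 : ℝ) ≤ k := by exact_mod_cast hk
  have ht2 : (2 : ℝ) ≤ t := by exact_mod_cast ht
  have hkt : (2 : ℝ) ≤ k * t := by nlinarith
  rw [Function.comp_apply, Nat.cast_choose_two, Nat.cast_mul]
  rw [Nat.cast_mul, Nat.cast_choose_two, Nat.cast_pow] at h2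
  have hpos : (0 : ℝ) < (k : ℝ) * t * (k * t - 1) / 2 := by
    have : (0 : ℝ) < (k : ℝ) * t * (k * t - 1) := mul_pos (by linarith) (by linarith)
    linarith
  rw [le_div_iff₀ hpos]
  refine le_trans ?_ h2
  have hk0 : (k : ℝ) ≠ 0 := by linarith
  have e : (1 - 1 / (k : ℝ)) * ((k : ℝ) * t * (k * t - 1) / 2) = (k - 1) * t * (k * t - 1) / 2 := by
    field_simp
  rw [e]
  nlinarith [mul_nonneg (sub_nonneg.2 hk1) (by linarith : (0:ℝ) ≤ t)]

/-- no cycle of length at most `g` -/
def NoShort {V : Type} (g : ℕ) (G : SimpleGraph V) : Prop :=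
  ∀ (v : V) (p : G.Walk v v), p.IsCycle → g < p.length

theorem noshort_add_first {V : Type} {H : SimpleGraph V} {u : V} (q : H.Walk u u) (hq : q.IsCycle)
    (d : H.Dart) (hd : d ∈ q.darts) (hdu : d.fst = u) (z : V) (hz : d.snd = z) :
    ∃ r : H.Walk z u, s(u, z) ∉ r.edges ∧ q.length = r.length + 1 := by
  subst hz
  cases q with
  | nil => simp at hd
  | @cons _ x _ h r =>
    rw [Walk.cons_isCycle_iff] at hq
    rw [Walk.darts_cons, List.mem_cons] at hd
    rcases hd with rfl | hd
    · exact ⟨r, hq.2, Walk.length_cons ..⟩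
    · exfalso
      have h1 := hq.1.support_nodup
      rw [← Walk.map_fst_darts_append, List.nodup_append] at h1
      have h2 : u ∈ r.darts.map (fun x => x.fst) := List.mem_map.mpr ⟨d, hd, hdu⟩
      exact h1.2.2 u h2 u (by simp) rfl

theorem noshort_add {V : Type} (g : ℕ) (G : SimpleGraph V) (hG : NoShort g G) (u v : V)
    (huv : u ≠ v) (hfar : ∀ p : G.Walk u v, g ≤ p.length) : NoShort g (G ⊔ edge u v) := by
  classical
  intro w p hp
  have hE : ∀ e, e ∈ (G ⊔ edge u v).edgeSet → e ≠ s(u, v) → e ∈ G.edgeSet := by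
    intro e he hne
    rw [edgeSet_sup, edgeSet_edge_of_ne huv] at he
    rcases he with he | he
    · exact he
    · exact absurd he hne
  by_cases he : s(u, v) ∈ p.edges
  · have hu : u ∈ p.support := p.fst_mem_support_of_mem_edges he
    have hq := hp.rotate hu
    have hrot := p.rotate_darts u hu
    have hlen : (p.rotate u hu).length = p.length := by
      rw [← Walk.length_darts, ← Walk.length_darts]
      exact hrot.perm.length_eq
    obtain ⟨d, hd, hde⟩ : ∃ d ∈ p.darts, d.edge = s(u, v) := by
      simpa [Walk.edges] using he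
    have hdq : d ∈ (p.rotate u hu).darts := hrot.perm.mem_iff.mpr hd
    obtain ⟨r, hr1, hr2⟩ : ∃ r : (G ⊔ edge u v).Walk v u, s(u, v) ∉ r.edges ∧ p.length = r.length + 1 := by
      rcases (dart_edge_eq_mk'_iff' (d := d)).mp hde with ⟨h1, h2⟩ | ⟨h1, h2⟩
      · obtain ⟨r, a, b⟩ := noshort_add_first _ hq d hdq h1 v h2
        rw [hlen] at b
        exact ⟨r, a, b⟩
      · obtain ⟨r, a, b⟩ := noshort_add_first _ hq.reverse d.symm (by
          rw [Walk.darts_reverse, List.mem_reverse]
          exact List.mem_map.mpr ⟨d, hdq, rfl⟩) h2 v h1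
        rw [Walk.length_reverse, hlen] at b
        exact ⟨r, a, b⟩
    have ht : ∀ e ∈ r.edges, e ∈ G.edgeSet := by
      intro e hme
      refine hE e (r.edges_subset_edgeSet hme) ?_
      rintro rfl
      exact hr1 hme
    have := hfar (r.transfer G ht).reverse
    rw [Walk.length_reverse, Walk.length_transfer] at this
    omega
  · have ht : ∀ e ∈ p.edges, e ∈ G.edgeSet := by
      intro e hme
      refine hE e (p.edges_subset_edgeSet hme) ?_
      rintro rfl
      exact he hme
    have := hG w (p.transfer G ht) (hp.transfer ht)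
    rwa [Walk.length_transfer] at this



theorem ball_card {V : Type} [Fintype V] (G : SimpleGraph V) (M : ℕ)
    (hM : ∀ v, (G.neighborSet v).ncard ≤ M) (g : ℕ) (u : V) :
    {v | ∃ p : G.Walk u v, p.length < g}.ncard ≤ (M + 1) ^ g := by
  classical
  induction g generalizing u with
  | zero => simp
  | succ g ih =>
    have hfin : (G.neighborSet u).Finite := Set.toFinite _
    have hsub : {v | ∃ p : G.Walk u v, p.length < g + 1} ⊆
        {u} ∪ ⋃ w ∈ hfin.toFinset, {v | ∃ p : G.Walk w v, p.length < g} := by
      rintro v ⟨p, hp⟩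
      cases p with
      | nil => left; rfl
      | @cons _ w _ h q =>
        right
        simp only [Set.mem_iUnion]
        rw [SimpleGraph.Walk.length_cons] at hp
        exact ⟨w, by simpa using h, q, by omega⟩
    have h1 : (⋃ w ∈ hfin.toFinset, {v | ∃ p : G.Walk w v, p.length < g}).ncard ≤
        ∑ w ∈ hfin.toFinset, ({v | ∃ p : G.Walk w v, p.length < g}).ncard :=
      Finset.set_ncard_biUnion_le _ _
    have h2 : ∑ w ∈ hfin.toFinset, ({v | ∃ p : G.Walk w v, p.length < g}).ncard ≤
        M * (M + 1) ^ g := by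
      calc ∑ w ∈ hfin.toFinset, ({v | ∃ p : G.Walk w v, p.length < g}).ncard
          ≤ ∑ w ∈ hfin.toFinset, (M + 1) ^ g := Finset.sum_le_sum fun w _ => ih w
        _ = hfin.toFinset.card * (M + 1) ^ g := by rw [Finset.sum_const, smul_eq_mul]
        _ ≤ M * (M + 1) ^ g := by
            apply Nat.mul_le_mul_right
            rw [← Set.ncard_eq_toFinset_card _ hfin]
            exact hM u
    have h3 := Set.ncard_le_ncard hsub (Set.toFinite _)
    have h4 := Set.ncard_union_le {u} (⋃ w ∈ hfin.toFinset, {v | ∃ p : G.Walk w v, p.length < g})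
    rw [Set.ncard_singleton] at h4
    have h5 : 1 ≤ (M + 1) ^ g := Nat.one_le_pow _ _ (by omega)
    rw [pow_succ, mul_add, mul_one, mul_comm ((M + 1) ^ g) M]
    omega



theorem dense_noshort (M g n : ℕ) (hg : 2 ≤ g) :
    ∃ G : SimpleGraph (Fin n), NoShort g G ∧ M * (n - (M + 1) ^ g) ≤ 2 * G.edgeSet.ncard := by
  classical
  obtain ⟨G, ⟨hG1, hG2⟩, hmax⟩ := Set.exists_max_image
    {G : SimpleGraph (Fin n) | NoShort g G ∧ ∀ v, (G.neighborSet v).ncard ≤ M}
    (fun G => G.edgeSet.ncard) (Set.toFinite _) ⟨⊥, by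
      constructor
      · intro v p hp
        cases p with
        | nil => exact absurd hp (by simp)
        | cons h _ => exact absurd h (by simp)
      · intro v
        have : ((⊥ : SimpleGraph (Fin n)).neighborSet v) = ∅ := by
          ext x; simp
        rw [this]; simp⟩
  refine ⟨G, hG1, ?_⟩
  set U : Set (Fin n) := {v | (G.neighborSet v).ncard < M} with hU
  have hsub : ∀ u ∈ U, U ⊆ {v | ∃ p : G.Walk u v, p.length < g} := by
    intro u hu v hv
    by_contra hno
    have hfar : ∀ p : G.Walk u v, g ≤ p.length := by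
      intro p
      by_contra hlt
      exact hno ⟨p, not_le.1 hlt⟩
    have huv : u ≠ v := by
      rintro rfl
      have := hfar Walk.nil
      simp at this
      omega
    have hnadj : ¬ G.Adj u v := by
      intro h
      have := hfar h.toWalk
      simp at this
      omega
    have hN := noshort_add g G hG1 u v huv hfar
    have hdeg : ∀ w, ((G ⊔ edge u v).neighborSet w).ncard ≤ M := by
      intro w
      by_cases h1 : w = u
      · subst h1
        have hs : (G ⊔ edge w v).neighborSet w ⊆ insert v (G.neighborSet w) := by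
          intro x hx
          rw [mem_neighborSet, sup_adj, edge_adj] at hx
          rw [Set.mem_insert_iff, mem_neighborSet]
          rcases hx with hx | ⟨⟨h, h'⟩ | ⟨h, h'⟩, h''⟩
          · exact Or.inr hx
          · exact Or.inl (by first | exact h'.symm | exact h')
          · exact absurd h huv
        calc _ ≤ (insert v (G.neighborSet w)).ncard := Set.ncard_le_ncard hs (Set.toFinite _)
          _ ≤ (G.neighborSet w).ncard + 1 := Set.ncard_insert_le _ _
          _ ≤ M := hu
      · by_cases h2 : w = v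
        · subst h2
          have hs : (G ⊔ edge u w).neighborSet w ⊆ insert u (G.neighborSet w) := by
            intro x hx
            rw [mem_neighborSet, sup_adj, edge_adj] at hx
            rw [Set.mem_insert_iff, mem_neighborSet]
            rcases hx with hx | ⟨⟨h, h'⟩ | ⟨h, h'⟩, h''⟩
            · exact Or.inr hx
            · left; aesop
            · left; aesop
          calc _ ≤ (insert u (G.neighborSet w)).ncard := Set.ncard_le_ncard hs (Set.toFinite _)
            _ ≤ (G.neighborSet w).ncard + 1 := Set.ncard_insert_le _ _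
            _ ≤ M := hv
        · have hs : (G ⊔ edge u v).neighborSet w ⊆ G.neighborSet w := by
            intro x hx
            rw [mem_neighborSet, sup_adj, edge_adj] at hx
            rw [mem_neighborSet]
            rcases hx with hx | ⟨⟨h, h'⟩ | ⟨h, h'⟩, h''⟩
            · exact hx
            · exfalso; aesop
            · exfalso; aesop
          exact (Set.ncard_le_ncard hs (Set.toFinite _)).trans (hG2 w)
    have hlt : G.edgeSet.ncard < (G ⊔ edge u v).edgeSet.ncard := by
      apply Set.ncard_lt_ncard _ (Set.toFinite _)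
      rw [Set.ssubset_iff_of_subset (edgeSet_mono le_sup_left)]
      refine ⟨s(u, v), ?_, hnadj⟩
      rw [mem_edgeSet, sup_adj, edge_adj]
      right
      aesop
    have := hmax (G ⊔ edge u v) ⟨hN, hdeg⟩
    omega
  have hUc : U.ncard ≤ (M + 1) ^ g := by
    rcases U.eq_empty_or_nonempty with h | ⟨u, hu⟩
    · rw [h]; simp
    · exact (Set.ncard_le_ncard (hsub u hu) (Set.toFinite _)).trans (ball_card G M hG2 g u)
  have hE : G.edgeSet.ncard = G.edgeFinset.card := Set.ncard_eq_toFinset_card' _
  rw [hE, ← G.sum_degrees_eq_twice_card_edges]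
  have hdegs : ∀ v, G.degree v = (G.neighborSet v).ncard := by
    intro v
    rw [Set.ncard_eq_toFinset_card']
    rfl
  have h1 : (Finset.univ.filter fun v => v ∉ U).card * M ≤ ∑ v, G.degree v := by
    calc (Finset.univ.filter fun v => v ∉ U).card * M
        = ∑ v ∈ Finset.univ.filter (fun v => v ∉ U), M := by rw [Finset.sum_const, smul_eq_mul]
      _ ≤ ∑ v ∈ Finset.univ.filter (fun v => v ∉ U), G.degree v := by
          apply Finset.sum_le_sum
          intro v hv
          rw [Finset.mem_filter] at hv
          rw [hdegs v]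
          exact not_lt.1 hv.2
      _ ≤ ∑ v, G.degree v := Finset.sum_le_sum_of_subset (Finset.filter_subset _ _)
  have h2 : (Finset.univ.filter fun v => v ∉ U).card = n - U.ncard := by
    have ha : (Finset.univ.filter fun v : Fin n => v ∈ U).card = U.ncard := by
      rw [← Set.ncard_coe_finset]
      congr 1
      ext v; simp
    have hb := Finset.card_filter_add_card_filter_not (s := (Finset.univ : Finset (Fin n))) (fun v => v ∈ U)
    rw [ha, Finset.card_univ, Fintype.card_fin] at hb
    omega
  rw [h2] at h1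
  calc M * (n - (M + 1) ^ g) ≤ M * (n - U.ncard) := Nat.mul_le_mul_left _ (by omega)
    _ = (n - U.ncard) * M := Nat.mul_comm _ _
    _ ≤ _ := h1



theorem superlinear {W : Type} [Fintype W] (L : SimpleGraph W) (hL : ¬ L.IsAcyclic) (K : ℕ) :
    ∀ᶠ n : ℕ in atTop, K * n < extremalNumber n L := by
  classical
  unfold SimpleGraph.IsAcyclic at hL
  push Not at hL
  obtain ⟨v, c, hc⟩ := hL
  have hlen : c.length ≤ Fintype.card W := by
    have h1 := hc.support_nodup.length_le_card
    rw [List.length_tail, Walk.length_support] at h1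
    simpa using h1
  rw [eventually_atTop]
  refine ⟨(K + 1) * (2 * K + 2 + 1) ^ (Fintype.card W) + 1, fun n hn => ?_⟩
  obtain ⟨G, hG, hE⟩ := dense_noshort (2 * K + 2) (Fintype.card W) n
    (by have := hc.three_le_length; omega)
  have hfree : L.Free G := by
    rintro ⟨f⟩
    have h1 := hG _ (c.map f.toHom) ((Walk.isCycle_map_iff_of_injective f.injective).mpr hc)
    rw [Walk.length_map] at h1
    omega
  have h2 := card_edgeFinset_le_extremalNumber hfree
  rw [Fintype.card_fin] at h2
  have h3 : G.edgeSet.ncard = G.edgeFinset.card := by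
    rw [Set.ncard_eq_toFinset_card']
    rfl
  rw [h3] at hE
  generalize (2 * K + 2 + 1) ^ (Fintype.card W) = T at hn hE
  have hTn : T ≤ n := by nlinarith
  obtain ⟨m, rfl⟩ := Nat.exists_eq_add_of_le hTn
  rw [Nat.add_sub_cancel_left] at hE
  nlinarith

theorem A_nonempty {W : Type} [Fintype W] (L : SimpleGraph W) (hL : L ≠ ⊥) (n : ℕ)
    (hn : Fintype.card W ≤ n) :
    {c : ℕ | ∃ G : SimpleGraph (Fin n),
      G.edgeSet.ncard = extremalNumber n L + 1 ∧ c = G.copyCount L}.Nonempty := by
  obtain ⟨H, -, hH⟩ := exists_sub (⊤ : SimpleGraph (Fin n)) _ (ex_lt L hL n hn)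
  exact ⟨_, H, hH, rfl⟩

theorem tendsto_of_many {W : Type} [Fintype W] (L : SimpleGraph W) (hL : L ≠ ⊥)
    (h : ∀ A0 : ℕ, ∃ N : ℕ, ∀ n ≥ N, ∀ G : SimpleGraph (Fin n),
      G.edgeSet.ncard = extremalNumber n L + 1 → A0 ≤ G.copyCount L) :
    Tendsto (fun n => A n L) atTop atTop := by
  rw [tendsto_atTop]
  intro A0
  obtain ⟨N, hN⟩ := h A0
  filter_upwards [eventually_ge_atTop (max N (Fintype.card W))] with n hn
  obtain ⟨G, hG, hc⟩ := Nat.sInf_mem (A_nonempty L hL n (le_trans (le_max_right _ _) hn))
  have h1 := hN n (le_trans (le_max_left _ _) hn) G hG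
  unfold A
  rw [hc]
  exact h1

theorem contained {W : Type} (L : SimpleGraph W) (n : ℕ) (G : SimpleGraph (Fin n))
    (hG : G.edgeSet.ncard = extremalNumber n L + 1) : L ⊑ G := by
  by_contra h
  have := ncard_le_ex L n G h
  omega

theorem many_isolated {W : Type} [Fintype W] (L : SimpleGraph W) (v : W)
    (hv : ∀ w, ¬ L.Adj v w) (A0 : ℕ) (n : ℕ) (hn : Fintype.card W * A0 < n)
    (G : SimpleGraph (Fin n)) (hG : G.edgeSet.ncard = extremalNumber n L + 1) :
    A0 < G.copyCount L := by
  by_contra hA
  push Not at hA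
  have hcont := contained L n G hG
  have h1 := ncard_inCopy_le G L
  have h2 : inCopy G L = Set.univ := by
    ext x
    simp only [Set.mem_univ, iff_true]
    exact inCopy_isolated G L v hv hcont x
  rw [h2, Set.ncard_univ, Nat.card_eq_fintype_card, Fintype.card_fin] at h1
  have h3 := Nat.mul_le_mul_left (Fintype.card W) hA
  omega

theorem many_edge {W : Type} [Fintype W] (L : SimpleGraph W)
    (a b : W) (hab : L.Adj a b) (ha : ∀ w, L.Adj a w → w = b) (hb : ∀ w, L.Adj b w → w = a)
    (hiso : ∀ v, ∃ w, L.Adj v w) (h3 : 3 ≤ Fintype.card W) (A0 K : ℕ)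
    (hK : K = Fintype.card W * A0) (n : ℕ)
    (hn : K * ((Fintype.card W + 2) * 2 ^ K) + 2 * K ^ 2 + (K + 1) ^ 2 + K + 1 < n)
    (G : SimpleGraph (Fin n)) (hG : G.edgeSet.ncard = extremalNumber n L + 1) :
    A0 < G.copyCount L := by
  classical
  by_contra hA
  push Not at hA
  have hcont := contained L n G hG
  have h1 := ncard_inCopy_le G L
  set S : Finset (Fin n) := (inCopy G L).toFinset with hSdef
  have hScard : S.card ≤ K := by
    have : S.card = (inCopy G L).ncard := by
      rw [hSdef, Set.ncard_eq_toFinset_card']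
    rw [this, hK]
    exact le_trans h1 (Nat.mul_le_mul_left _ hA)
  have hScov : ∀ u v, G.Adj u v → u ∈ S ∨ v ∈ S := by
    intro u v huv
    rw [hSdef, Set.mem_toFinset, Set.mem_toFinset]
    exact cover G L a b hab ha hb hcont u v huv
  have hup := upper G S hScov
  have hS2 : S.card ^ 2 ≤ K ^ 2 := Nat.pow_le_pow_left hScard 2
  by_cases hgood : ∃ P : Finset W, (∀ x y, L.Adj x y → (x ∈ P ↔ y ∉ P)) ∧ P.card ≤ K + 1
  · -- bipartite case
    have hex : ∃ p, ∃ P : Finset W, (∀ x y, L.Adj x y → (x ∈ P ↔ y ∉ P)) ∧ P.card = p := by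
      obtain ⟨P, hP, -⟩ := hgood
      exact ⟨_, P, hP, rfl⟩
    obtain ⟨P, hP, hPc⟩ := Nat.find_spec hex
    have hmin : ∀ P' : Finset W, (∀ x y, L.Adj x y → (x ∈ P' ↔ y ∉ P')) → P.card ≤ P'.card := by
      intro P' hP'
      rw [hPc]
      exact Nat.find_min' hex ⟨P', hP', rfl⟩
    have hPK : P.card ≤ K + 1 := by
      obtain ⟨P', hP', hc'⟩ := hgood
      exact le_trans (hmin P' hP') hc'
    have hP2 : 2 ≤ P.card := by
      -- an element of `{a, b}` and one outside
      have h4 : ∃ x ∈ P, x = a ∨ x = b := by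
        by_cases haP : a ∈ P
        · exact ⟨a, haP, Or.inl rfl⟩
        · refine ⟨b, ?_, Or.inr rfl⟩
          by_contra hbP
          exact haP ((hP a b hab).2 hbP)
      have h5 : ∃ c : W, c ≠ a ∧ c ≠ b := by
        by_contra hno
        push Not at hno
        have : (Finset.univ : Finset W) ⊆ {a, b} := by
          intro x _
          by_cases hxa : x = a
          · simp [hxa]
          · simp [hno x hxa]
        have := Finset.card_le_card this
        have h6 : ({a, b} : Finset W).card ≤ 2 := Finset.card_le_two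
        rw [Finset.card_univ] at this
        omega
      obtain ⟨c, hca, hcb⟩ := h5
      obtain ⟨d, hcd⟩ := hiso c
      have hda : d ≠ a := by
        rintro rfl
        exact hcb (ha c hcd.symm)
      have hdb : d ≠ b := by
        rintro rfl
        exact hca (hb c hcd.symm)
      have h7 : ∃ y ∈ P, y ≠ a ∧ y ≠ b := by
        by_cases hcP : c ∈ P
        · exact ⟨c, hcP, hca, hcb⟩
        · refine ⟨d, ?_, hda, hdb⟩
          by_contra hdP
          exact hcP ((hP c d hcd).2 hdP)
      obtain ⟨x, hxP, hx⟩ := h4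
      obtain ⟨y, hyP, hya, hyb⟩ := h7
      have : 1 < P.card := by
        rw [Finset.one_lt_card]
        refine ⟨x, hxP, y, hyP, ?_⟩
        rintro rfl
        rcases hx with h | h
        · exact hya h
        · exact hyb h
      omega
    obtain ⟨r, hr⟩ : ∃ r, P.card = r + 1 := ⟨P.card - 1, by omega⟩
    have hr1 : 1 ≤ r := by omega
    have hrK : r ≤ K := by omega
    have hrn : r ≤ n := by omega
    have hlow := lower L r n hrn (fun P' hP' => by
      have := hmin P' hP'
      omega)
    have hr2 : r * r ≤ K * K := Nat.mul_le_mul hrK hrK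
    have h8 : r * n ≤ (∑ x ∈ Sᶜ, (G.neighborSet x).ncard) + 2 * K ^ 2 := by
      have h9 : r * (n - r) + r * r = r * n := by
        rw [← Nat.mul_add]
        congr 1
        omega
      have hK2 : K ^ 2 = K * K := sq K
      omega
    have hlt : S.card * ((Fintype.card W + 2) * 2 ^ S.card) + 2 * K ^ 2 < n := by
      have h10 : 2 ^ S.card ≤ 2 ^ K := Nat.pow_le_pow_right (by norm_num) hScard
      have h11 : S.card * ((Fintype.card W + 2) * 2 ^ S.card)
          ≤ K * ((Fintype.card W + 2) * 2 ^ K) :=
        Nat.mul_le_mul hScard (Nat.mul_le_mul_left _ h10)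
      omega
    obtain ⟨B, Y, hBc, hYS, hYB, hYc⟩ :=
      pigeon G S hScov r (Fintype.card W + 2) (2 * K ^ 2) hr1 h8 hlt
    refine structural G L a b hab ha hb hiso h3 P hP B Y (by omega) hYB hYc ?_ hcont
    intro y hy hyc
    apply hYS y hy
    rw [hSdef, Set.mem_toFinset]
    exact hyc
  · -- no small colour class
    push Not at hgood
    have hlow := lower L (K + 1) n (by omega) hgood
    have hsum : (∑ x ∈ Sᶜ, (G.neighborSet x).ncard) ≤ K * n := by
      have h12 : ∀ x ∈ Sᶜ, (G.neighborSet x).ncard ≤ K := by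
        intro x hx
        have hxS : x ∉ S := by simpa using hx
        have hsub : G.neighborSet x ⊆ (S : Set (Fin n)) := by
          intro y hy
          rcases hScov x y hy with h | h
          · exact absurd h hxS
          · exact h
        have := Set.ncard_le_ncard hsub (Finset.finite_toSet S)
        rw [Set.ncard_coe_finset] at this
        exact le_trans this hScard
      have h13 := Finset.sum_le_card_nsmul Sᶜ _ K h12
      have h14 : (Sᶜ).card ≤ n := by
        have := Finset.card_le_univ (Sᶜ)
        rwa [Fintype.card_fin] at this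
      calc (∑ x ∈ Sᶜ, (G.neighborSet x).ncard) ≤ (Sᶜ).card • K := h13
        _ = (Sᶜ).card * K := by rw [smul_eq_mul]
        _ ≤ n * K := Nat.mul_le_mul_right _ h14
        _ = K * n := Nat.mul_comm _ _
    have h15 : (K + 1) * (n - (K + 1)) + (K + 1) ^ 2 = K * n + n := by
      obtain ⟨t, ht⟩ : ∃ t, n = t + (K + 1) := ⟨n - (K + 1), by omega⟩
      subst ht
      rw [Nat.add_sub_cancel]
      ring
    omega

theorem small_component {W : Type} [Fintype W] (L : SimpleGraph W) (hL : L ≠ ⊥)
    (h3 : 3 ≤ Fintype.card W) (hc : ∃ c : L.ConnectedComponent, c.supp.ncard ≤ 2) :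
    Tendsto (fun n => A n L) atTop atTop := by
  classical
  apply tendsto_of_many L hL
  by_cases hiso : ∀ v, ∃ w, L.Adj v w
  · obtain ⟨c, hc⟩ := hc
    obtain ⟨a, ha⟩ := c.nonempty_supp
    obtain ⟨b, hab⟩ := hiso a
    have hbc : b ∈ c.supp := (c.mem_supp_congr_adj hab).1 ha
    have hne : a ≠ b := hab.ne
    have hsub : ({a, b} : Set W) ⊆ c.supp := by
      intro x hx
      rcases hx with rfl | rfl
      · exact ha
      · exact hbc
    have heq : ({a, b} : Set W) = c.supp := by
      apply Set.eq_of_subset_of_ncard_le hsub _ (Set.toFinite _)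
      rw [Set.ncard_pair hne]
      exact hc
    have hA : ∀ w, L.Adj a w → w = b := by
      intro w hw
      have : w ∈ c.supp := (c.mem_supp_congr_adj hw).1 ha
      rw [← heq] at this
      rcases this with h | h
      · exact absurd h hw.ne'
      · exact h
    have hB : ∀ w, L.Adj b w → w = a := by
      intro w hw
      have : w ∈ c.supp := (c.mem_supp_congr_adj hw).1 hbc
      rw [← heq] at this
      rcases this with h | h
      · exact h
      · exact absurd h hw.ne'
    intro A0
    refine ⟨_, fun n hn G hG =>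
      (many_edge L a b hab hA hB hiso h3 A0 _ rfl n (Nat.lt_of_succ_le hn) G hG).le⟩
  · push Not at hiso
    obtain ⟨v, hv⟩ := hiso
    intro A0
    exact ⟨Fintype.card W * A0 + 1, fun n hn G hG =>
      (many_isolated L v hv A0 n hn G hG).le⟩

theorem tree_bounded {W : Type} [Fintype W] (L : SimpleGraph W) (hL : L.IsTree) (hne : L ≠ ⊥) :
    ∃ C : ℕ, ∀ n, A n L ≤ C := by
  classical
  set k := Fintype.card W with hk
  set s := 2 * k + 2 with hs
  have hiter : ∀ m j : ℕ, extremalNumber (m + j) L ≤ extremalNumber m L + j * k := by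
    intro m j
    induction j with
    | zero => simp
    | succ j ih =>
      have := ex_succ L hL hne (m + j)
      rw [← hk] at this
      have h2 : (j + 1) * k = j * k + k := by ring
      rw [h2]
      rw [← add_assoc] 
      omega
  refine ⟨s ^ k + ∑ i ∈ Finset.range s, A i L, ?_⟩
  intro n
  by_cases hn : n < s
  · have : A n L ≤ ∑ i ∈ Finset.range s, A i L :=
      Finset.single_le_sum (f := fun i => A i L) (fun _ _ => Nat.zero_le _)
        (Finset.mem_range.2 hn)
    omega
  · obtain ⟨m, rfl⟩ : ∃ m, n = m + s := ⟨n - s, by omega⟩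
    obtain ⟨H0, hfree, hcard⟩ := exists_extremal L hne m
    obtain ⟨G, hG, hcop⟩ := construct L hL.connected m s H0 hfree
    have hch : s * k + 1 ≤ s.choose 2 := by
      rw [Nat.choose_two_right, Nat.le_div_iff_mul_le (by norm_num)]
      have : s - 1 = 2 * k + 1 := by omega
      rw [this, hs]
      nlinarith
    have hle : extremalNumber (m + s) L + 1 ≤ G.edgeSet.ncard := by
      have := hiter m s
      omega
    obtain ⟨G', hG', hc'⟩ := exists_sub G _ hle
    have h1 : A (m + s) L ≤ G'.copyCount L := Nat.sInf_le ⟨G', hc', rfl⟩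
    have h2 := hcop G' hG'
    rw [← hk] at h2
    omega

theorem many_gap {W : Type} [Fintype W] (L : SimpleGraph W) (hL : L ≠ ⊥)
    (c : L.ConnectedComponent)
    (hgap : ∀ K : ℕ, ∀ᶠ n : ℕ in atTop,
      extremalNumber n (L.induce c.supp) + K * n < extremalNumber n L) :
    Tendsto (fun n => A n L) atTop atTop := by
  apply tendsto_of_many L hL
  intro A0
  by_cases hc : ∃ a ∈ c.supp, ∃ b, L.Adj a b
  · obtain ⟨N, hN⟩ := eventually_atTop.1 (hgap (Fintype.card W * A0))
    refine ⟨N, fun n hn G hG => ?_⟩
    by_contra hA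
    push Not at hA
    have hcont := contained L n G hG
    have hfree := free_outside G L c hc hcont
    have h1 := ncard_le_ex (L.induce c.supp) n (outside G L) hfree
    have h2 := edges_outside G L
    have h3 := ncard_inCopy_le G L
    have h4 : (inCopy G L).ncard * n ≤ Fintype.card W * A0 * n :=
      Nat.mul_le_mul_right _ (h3.trans (Nat.mul_le_mul_left _ hA.le))
    have h5 := hN n hn
    omega
  · push Not at hc
    obtain ⟨v, hv⟩ := c.nonempty_supp
    exact ⟨Fintype.card W * A0 + 1, fun n hn G hG =>
      (many_isolated L v (fun w => hc v hv w) A0 n hn G hG).le⟩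

theorem small_chromatic {W : Type} [Fintype W] (L : SimpleGraph W) (c : L.ConnectedComponent)
    (k : ℕ) (hk : 2 ≤ k) (hc : (L.induce c.supp).Colorable k) (hL : ¬ L.Colorable k) :
    Tendsto (fun n => A n L) atTop atTop := by
  have hne : L ≠ ⊥ := by
    rintro rfl
    apply hL
    exact ⟨Coloring.mk (fun _ => ⟨0, by omega⟩) (fun h => absurd h (by simp))⟩
  by_cases hb : L.induce c.supp = ⊥
  · obtain ⟨v, hv⟩ := c.nonempty_supp
    have hiso : ∀ w, ¬ L.Adj v w := by
      intro w hw
      have hwc : w ∈ c.supp := (c.mem_supp_congr_adj hw).1 hv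
      have h1 : (L.induce c.supp).Adj ⟨v, hv⟩ ⟨w, hwc⟩ := hw
      rw [hb] at h1
      exact h1
    apply tendsto_of_many L hne
    intro A0
    exact ⟨Fintype.card W * A0 + 1, fun n hn G hG =>
      (many_isolated L v hiso A0 n hn G hG).le⟩
  · apply many_gap L hne c
    intro K
    apply gap
    classical
    obtain ⟨r, rfl⟩ : ∃ r, k = r + 1 := ⟨k - 1, by omega⟩
    have hr : 1 ≤ r := by omega
    have : Fintype c.supp := Fintype.ofFinite _
    have h1 := es_upper (L.induce c.supp) r hr hc hb
    have h2 := turan_lower L (r + 1) (by omega) hL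
    have h3 : (1 : ℝ) / ((r + 1 : ℕ) : ℝ) < 1 / (r : ℝ) := by
      apply one_div_lt_one_div_of_lt
      · exact_mod_cast hr
      · push_cast
        linarith
    linarith

theorem ex_zero {W : Type} (H : SimpleGraph W) (hne : H ≠ ⊥) : extremalNumber 0 H = 0 := by
  obtain ⟨G, -, hG⟩ := exists_extremal H hne 0
  rw [← hG]
  have : G.edgeSet = ∅ := by
    ext e
    induction e with
    | _ x y => exact x.elim0
  rw [this, Set.ncard_empty]

theorem tree_component {W : Type} [Fintype W] (L : SimpleGraph W) (hL : ¬ L.IsAcyclic)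
    (c : L.ConnectedComponent) (hc : (L.induce c.supp).IsTree) :
    Tendsto (fun n => A n L) atTop atTop := by
  classical
  have hne : L ≠ ⊥ := by
    rintro rfl
    exact hL isAcyclic_bot
  by_cases hb : L.induce c.supp = ⊥
  · obtain ⟨v, hv⟩ := c.nonempty_supp
    have hiso : ∀ w, ¬ L.Adj v w := by
      intro w hw
      have hwc : w ∈ c.supp := (c.mem_supp_congr_adj hw).1 hv
      have h1 : (L.induce c.supp).Adj ⟨v, hv⟩ ⟨w, hwc⟩ := hw
      rw [hb] at h1
      exact h1
    apply tendsto_of_many L hne
    intro A0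
    exact ⟨Fintype.card W * A0 + 1, fun n hn G hG =>
      (many_isolated L v hiso A0 n hn G hG).le⟩
  · have : Fintype c.supp := Fintype.ofFinite _
    have hlin : ∀ n : ℕ, extremalNumber n (L.induce c.supp) ≤ Fintype.card c.supp * n := by
      intro n
      induction n with
      | zero => rw [ex_zero _ hb]; exact Nat.zero_le _
      | succ n ih =>
        have h1 := ex_succ (L.induce c.supp) hc hb n
        rw [Nat.mul_succ]
        omega
    apply many_gap L hne c
    intro K
    filter_upwards [superlinear L hL (Fintype.card c.supp + K)] with n hn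
    have h2 := hlin n
    rw [Nat.add_mul] at hn
    omega

theorem minCopies_eq {W : Type} (n : ℕ) (L : SimpleGraph W) : Stars.minCopies n L = A n L := by
  unfold Stars.minCopies A
  congr 1
  ext k
  constructor
  · rintro ⟨G, h1, h2⟩
    exact ⟨G, by rw [← h1]; exact (Nat.card_coe_set_eq _).symm, h2.symm⟩
  · rintro ⟨G, h1, h2⟩
    exact ⟨G, by rw [← h1]; exact Nat.card_coe_set_eq _, h2.symm⟩

theorem star_forest {W : Type} [Fintype W] (L : SimpleGraph W) (hL : L ≠ ⊥)
    (hd : ¬ L.Connected)
    (hs : ∀ u v, L.Adj u v → (∀ x, L.Adj u x → x = v) ∨ (∀ x, L.Adj v x → x = u)) :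
    Tendsto (fun n => A n L) atTop atTop := by
  by_cases hiso : ∀ u, ∃ v, L.Adj u v
  · have h := Stars.star_tendsto L hL hiso hd hs
    simpa only [minCopies_eq] using h
  · push Not at hiso
    obtain ⟨v, hv⟩ := hiso
    apply tendsto_of_many L hL
    intro A0
    exact ⟨Fintype.card W * A0 + 1, fun n hn G hG =>
      (many_isolated L v hv A0 n hn G hG).le⟩

theorem result :
    -- (1) trees: `A(n; L)` is bounded, so it does not tend to infinity
    (∀ (W : Type) [Fintype W] (L : SimpleGraph W), L.IsTree → L ≠ ⊥ →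
      (∃ C : ℕ, ∀ n, A n L ≤ C) ∧ ¬ Tendsto (fun n => A n L) atTop atTop) ∧
    -- (2) graphs with an edge, at least three vertices and a component on at most two vertices
    (∀ (W : Type) [Fintype W] (L : SimpleGraph W), L ≠ ⊥ → 3 ≤ Fintype.card W →
      (∃ c : L.ConnectedComponent, c.supp.ncard ≤ 2) →
      Tendsto (fun n => A n L) atTop atTop) ∧
    -- (3) graphs of chromatic number at least three with a component of smaller chromatic number
    (∀ (W : Type) [Fintype W] (L : SimpleGraph W), 3 ≤ L.chromaticNumber →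
      (∃ c : L.ConnectedComponent, (L.induce c.supp).chromaticNumber < L.chromaticNumber) →
      Tendsto (fun n => A n L) atTop atTop) ∧
    -- (4) graphs with a component whose extremal number is smaller by a superlinear amount
    (∀ (W : Type) [Fintype W] (L : SimpleGraph W), L ≠ ⊥ →
      (∃ c : L.ConnectedComponent, ∀ K : ℕ, ∀ᶠ n : ℕ in atTop,
        extremalNumber n (L.induce c.supp) + K * n < extremalNumber n L) →
      Tendsto (fun n => A n L) atTop atTop) ∧
    -- (5) graphs containing a cycle with a component that is a tree (possibly a single vertex)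
    (∀ (W : Type) [Fintype W] (L : SimpleGraph W), ¬ L.IsAcyclic →
      (∃ c : L.ConnectedComponent, (L.induce c.supp).IsTree) →
      Tendsto (fun n => A n L) atTop atTop) ∧
    -- (6) disconnected star forests (every edge has an endpoint of degree one)
    (∀ (W : Type) [Fintype W] (L : SimpleGraph W), L ≠ ⊥ → ¬ L.Connected →
      (∀ u v, L.Adj u v → (∀ x, L.Adj u x → x = v) ∨ (∀ x, L.Adj v x → x = u)) →
      Tendsto (fun n => A n L) atTop atTop) := by
  refine ⟨?_, ?_, ?_, ?_, ?_, ?_⟩
  · intro W _ L hL hne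
    obtain ⟨C, hC⟩ := tree_bounded L hL hne
    refine ⟨⟨C, hC⟩, fun h => ?_⟩
    rw [tendsto_atTop] at h
    obtain ⟨n, hn⟩ := (h (C + 1)).exists
    have := hC n
    omega
  · intro W _ L hne h3 hc
    exact small_component L hne h3 hc
  · rintro W _ L h3 ⟨c, hc⟩
    -- `k = max 2 χ(component)`
    have hfin : (L.induce c.supp).chromaticNumber ≠ ⊤ := ne_top_of_lt hc
    obtain ⟨m, hm⟩ := ENat.ne_top_iff_exists.1 hfin
    have hcol : (L.induce c.supp).Colorable m :=
      chromaticNumber_le_iff_colorable.1 hm.symm.le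
    refine small_chromatic L c (max 2 m) (le_max_left _ _) (hcol.mono (le_max_right _ _)) ?_
    intro hcolL
    have h5 := chromaticNumber_le_iff_colorable.2 hcolL
    rw [← hm] at hc
    have h6 : L.chromaticNumber ≤ max (2 : ℕ∞) (m : ℕ∞) := by
      refine h5.trans ?_
      rcases le_total 2 m with h | h
      · rw [max_eq_right h]; exact le_max_right _ _
      · rw [max_eq_left h]; exact le_max_left _ _
    rcases le_max_iff.1 h6 with h | h
    · have h7 : (3 : ℕ∞) ≤ 2 := h3.trans h
      exact absurd h7 (by decide)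
    · exact absurd hc (not_lt.2 h)
  · rintro W _ L hne ⟨c, hc⟩
    exact many_gap L hne c hc
  · rintro W _ L hne ⟨c, hc⟩
    exact tree_component L hne c hc
  · intro W _ L hne hd hs
    exact star_forest L hne hd hs

end Pool.Agent.Results.MP_ebbdc0_co.Components
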